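import Mathlib
import Pool.Prelude.Def_F_c31e40fa
import Pool.Agent.H713R2.Main3
import Pool.Agent.H712R2.MultiCoarse
import Pool.Agent.H749R2.Area4

set_option autoImplicit false

open Complex Set Topology Filter Metric N62a1eb23

namespace Pool.Agent.X201.MB

open Pool.Agent.H712R2 Pool.Agent.H713R2

/-! ### Behaviour of the exterior map at the boundary -/

theorem near_boundary {n : ℕ} {β : ℂ → ℂ} (hβ : IsBeta n β) {g : ℂ → ℝ} (hg : Continuous g)
    {A : ℝ} (hA : ∀ c ∈ multibrotSet n, g c ≤ A) {η : ℝ} (hη : 0 < η) :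
    ∃ r : ℝ, 0 < r ∧ r < 1 ∧ ∀ x ∈ ball (0 : ℂ) 1, r ≤ ‖x‖ → g (x⁻¹ * β x) < A + η := by
  by_contra hcon
  push Not at hcon
  have hr : ∀ j : ℕ, (0:ℝ) < 1 - 1 / ((j:ℝ) + 2) ∧ 1 - 1 / ((j:ℝ) + 2) < 1 := by
    intro j
    have h2 : (0:ℝ) < (j:ℝ) + 2 := by positivity
    have h3 : 1 / ((j:ℝ) + 2) < 1 := by rw [div_lt_one h2]; linarith [Nat.cast_nonneg (α := ℝ) j]
    have h4 : 0 < 1 / ((j:ℝ) + 2) := by positivity
    constructor <;> linarith
  choose x hxb hxr hxg using fun j : ℕ => hcon _ (hr j).1 (hr j).2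
  have hhalf : ∀ j, 1 / 2 ≤ ‖x j‖ := by
    intro j
    refine le_trans ?_ (hxr j)
    have : 1 / ((j:ℝ) + 2) ≤ 1 / 2 := one_div_le_one_div_of_le (by norm_num) (by linarith [Nat.cast_nonneg (α := ℝ) j])
    linarith
  have hfb : ∀ j, (x j)⁻¹ * β (x j) ∈ closedBall (0:ℂ) 4 := by
    intro j
    rw [mem_closedBall_zero_iff, norm_mul, norm_inv]
    have h1 := hβ.bound _ (hxb j)
    have h2 : (‖x j‖)⁻¹ ≤ 2 := by
      rw [inv_le_comm₀ (by linarith [hhalf j]) (by norm_num)]
      have := hhalf j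
      linarith
    calc (‖x j‖)⁻¹ * ‖β (x j)‖ ≤ 2 * 2 := mul_le_mul h2 h1 (norm_nonneg _) (by norm_num)
      _ = 4 := by norm_num
  obtain ⟨c, -, φ, hφ, hlim⟩ := (isCompact_closedBall (0:ℂ) 4).tendsto_subseq hfb
  have hgc : A + η ≤ g c := by
    have h1 : Tendsto (fun j => g ((x (φ j))⁻¹ * β (x (φ j)))) atTop (𝓝 (g c)) :=
      (hg.tendsto c).comp hlim
    exact ge_of_tendsto h1 (Eventually.of_forall fun j => hxg (φ j))
  have hcM : c ∉ multibrotSet n := fun h => by linarith [hA c h]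
  obtain ⟨y, hyb, hy0, hyc⟩ := hβ.surj c hcM
  set D : Set ℂ := ball 0 1 \ {0} with hD
  have hDo : IsOpen D := isOpen_ball.sdiff isClosed_singleton
  set f : ℂ → ℂ := fun x => x⁻¹ * β x with hf
  have hfd : DifferentiableOn ℂ f D := by
    intro x hx
    have hx0 : x ≠ 0 := hx.2
    apply DifferentiableAt.differentiableWithinAt
    exact (differentiableAt_inv_iff.mpr hx0).mul
      (hβ.diff.differentiableAt (isOpen_ball.mem_nhds hx.1))
  have hfi : InjOn f D := fun x hx y hy h => hβ.inj x hx.1 y hy.1 hx.2 hy.2 h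
  have hyn : ‖y‖ < 1 := mem_ball_zero_iff.mp hyb
  set V : Set ℂ := D ∩ ball 0 ((1 + ‖y‖) / 2) with hV
  have hVo : IsOpen V := hDo.inter isOpen_ball
  have hyV : y ∈ V := ⟨⟨hyb, hy0⟩, by rw [mem_ball_zero_iff]; linarith⟩
  have himo : IsOpen (f '' V) := Pool.Agent.Helper202.Univ.isOpen_image hDo hfd hfi hVo inter_subset_left
  have hcV : c ∈ f '' V := ⟨y, hyV, hyc⟩
  have hev := hlim.eventually (himo.mem_nhds hcV)
  have htend : Tendsto (fun j => 1 - 1 / (((φ j : ℕ) : ℝ) + 2)) atTop (𝓝 (1 - 0)) := by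
    apply Tendsto.sub tendsto_const_nhds
    have h1 : Tendsto (fun j : ℕ => ((φ j : ℕ) : ℝ) + 2) atTop atTop :=
      tendsto_atTop_add_const_right _ _ (tendsto_natCast_atTop_atTop.comp hφ.tendsto_atTop)
    refine h1.inv_tendsto_atTop.congr fun j => ?_
    simp
  rw [sub_zero] at htend
  have hev2 := htend.eventually (lt_mem_nhds (show (1 + ‖y‖) / 2 < 1 by linarith))
  obtain ⟨j, hj1, hj2⟩ := (hev.and hev2).exists
  obtain ⟨v, hvV, hvx⟩ := hj1
  have hxD : x (φ j) ∈ D := ⟨hxb _, fun h => by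
    have := hhalf (φ j)
    rw [h, norm_zero] at this
    linarith⟩
  have hveq : v = x (φ j) := hfi hvV.1 hxD hvx
  have h1 := mem_ball_zero_iff.mp hvV.2
  rw [hveq] at h1
  have h2 := hxr (φ j)
  linarith

/-- Maximum principle on the open disc with boundary bounds in the limit. -/
theorem max_disc {F : ℂ → ℂ} (hF : DifferentiableOn ℂ F (ball 0 1)) {C : ℝ}
    (h : ∀ η : ℝ, 0 < η → ∃ r : ℝ, r < 1 ∧ ∀ X ∈ ball (0:ℂ) 1, r ≤ ‖X‖ → ‖F X‖ ≤ C + η)
    {X : ℂ} (hX : X ∈ ball (0:ℂ) 1) : ‖F X‖ ≤ C := by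
  apply le_of_forall_pos_le_add
  intro η hη
  obtain ⟨r, hr1, hr⟩ := h η hη
  have hXn := mem_ball_zero_iff.mp hX
  set ρ := max (max r ‖X‖) (1 / 2) with hρ
  have hρ1 : ρ < 1 := max_lt (max_lt hr1 hXn) (by norm_num)
  have hρ0 : 0 < ρ := lt_of_lt_of_le (by norm_num) (le_max_right _ _)
  have hrρ : r ≤ ρ := (le_max_left _ _).trans (le_max_left _ _)
  have hXρ : ‖X‖ ≤ ρ := (le_max_right _ _).trans (le_max_left _ _)
  have hcl : closure (ball (0:ℂ) ρ) = closedBall 0 ρ := closure_ball 0 hρ0.ne'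
  have hd : DiffContOnCl ℂ F (ball 0 ρ) := by
    apply DifferentiableOn.diffContOnCl
    rw [hcl]
    exact hF.mono (closedBall_subset_ball hρ1)
  apply Complex.norm_le_of_forall_mem_frontier_norm_le isBounded_ball hd (C := C + η)
  · intro z hz
    rw [frontier_ball 0 hρ0.ne', mem_sphere_zero_iff_norm] at hz
    apply hr z
    · rw [mem_ball_zero_iff, hz]; exact hρ1
    · rw [hz]; exact hrρ
  · rw [hcl, mem_closedBall_zero_iff]; exact hXρ

/-! ### Symmetry -/

theorem mul_mem {n : ℕ} (hn : 2 ≤ n) {ω : ℂ} (hω : ω ^ (n - 1) = 1) {c : ℂ} :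
    ω * c ∈ multibrotSet n ↔ c ∈ multibrotSet n := by
  have hω1 : ‖ω‖ = 1 := by
    have : ‖ω‖ ^ (n - 1) = 1 := by rw [← norm_pow, hω, norm_one]
    exact (pow_eq_one_iff_of_nonneg (norm_nonneg _) (by omega)).mp this
  rw [mem_multibrot_iff hn, mem_multibrot_iff hn]
  simp only [P_rot hn hω, norm_mul, hω1, one_mul]

theorem beta_symm {n : ℕ} (hn : 2 ≤ n) {β : ℂ → ℂ} (hβ : IsBeta n β) {ω : ℂ}
    (hω : ω ^ (n - 1) = 1) {x : ℂ} (hx : x ∈ ball (0:ℂ) 1) : β (ω * x) = β x := by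
  by_cases hx0 : x = 0
  · rw [hx0, mul_zero]
  have hω1 : ‖ω‖ = 1 := by
    have : ‖ω‖ ^ (n - 1) = 1 := by rw [← norm_pow, hω, norm_one]
    exact (pow_eq_one_iff_of_nonneg (norm_nonneg _) (by omega)).mp this
  have hω0 : ω ≠ 0 := by rintro rfl; rw [norm_zero] at hω1; norm_num at hω1
  have hE := exteriorMap_of_beta hβ
  set ψ : ℂ → ℂ := fun z => z * β z⁻¹ with hψ
  set ψ' : ℂ → ℂ := fun z => ω * ψ (ω⁻¹ * z) with hψ'
  have hnorm : ∀ z : ℂ, ‖ω⁻¹ * z‖ = ‖z‖ := by
    intro z; rw [norm_mul, norm_inv, hω1, inv_one, one_mul]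
  have hE' : IsExteriorMap (multibrotSet n) ψ' := by
    refine ⟨?_, ?_, ?_, ?_⟩
    · apply DifferentiableOn.const_mul
      apply hE.diff.comp (by fun_prop)
      intro z hz
      show 1 < ‖ω⁻¹ * z‖
      rw [hnorm]; exact hz
    · intro z hz w hw h
      have h1 : ψ (ω⁻¹ * z) = ψ (ω⁻¹ * w) := mul_left_cancel₀ hω0 h
      have h2 := hE.inj (show 1 < ‖ω⁻¹ * z‖ by rw [hnorm]; exact hz)
        (show 1 < ‖ω⁻¹ * w‖ by rw [hnorm]; exact hw) h1
      exact mul_left_cancel₀ (inv_ne_zero hω0) h2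
    · ext c
      constructor
      · rintro ⟨z, hz, rfl⟩
        have h1 : ψ (ω⁻¹ * z) ∈ (multibrotSet n)ᶜ := by
          rw [← hE.image]
          exact mem_image_of_mem _ (show 1 < ‖ω⁻¹ * z‖ by rw [hnorm]; exact hz)
        intro h2
        exact h1 ((mul_mem hn hω).mp h2)
      · intro hc
        have h1 : ω⁻¹ * c ∈ (multibrotSet n)ᶜ := by
          intro h2
          apply hc
          rw [← mul_mem hn hω] at h2
          rwa [← mul_assoc, mul_inv_cancel₀ hω0, one_mul] at h2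
        rw [← hE.image] at h1
        obtain ⟨z, hz, hzc⟩ := h1
        refine ⟨ω * z, ?_, ?_⟩
        · show 1 < ‖ω * z‖
          rw [norm_mul, hω1, one_mul]; exact hz
        · show ω * ψ (ω⁻¹ * (ω * z)) = c
          have e1 : ω⁻¹ * (ω * z) = z := by rw [← mul_assoc, inv_mul_cancel₀ hω0, one_mul]
          rw [e1, hzc, ← mul_assoc, mul_inv_cancel₀ hω0, one_mul]
    · have h1 : Tendsto (fun z : ℂ => ω⁻¹ * z) (Bornology.cobounded ℂ) (Bornology.cobounded ℂ) := by
        rw [← tendsto_norm_atTop_iff_cobounded]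
        simp only [hnorm]
        exact tendsto_norm_cobounded_atTop
      have h2 := hE.infinity.comp h1
      refine h2.congr fun z => ?_
      simp only [Function.comp_apply, hψ', hψ]
      by_cases hz : z = 0
      · simp [hz]
      · field_simp
  have hz1 : 1 < ‖x⁻¹‖ := one_lt_norm_inv hx hx0
  have h3 := exteriorMap_unique hβ hE' hz1
  rw [inv_inv] at h3
  simp only [hψ', hψ] at h3
  have h4 : (ω⁻¹ * x⁻¹)⁻¹ = ω * x := by rw [mul_inv, inv_inv, inv_inv]
  rw [h4] at h3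
  have h5 : ω * (ω⁻¹ * x⁻¹ * β (ω * x)) = x⁻¹ * β (ω * x) := by
    field_simp
  rw [h5] at h3
  exact mul_left_cancel₀ (inv_ne_zero hx0) h3

/-- A function on the disc which is invariant under the `N`-th roots of unity is a function of
`x ^ N`. -/
theorem exists_factor {N : ℕ} (hN : 1 ≤ N) {F : ℂ → ℂ} (hF : DifferentiableOn ℂ F (ball 0 1))
    (hsym : ∀ ω : ℂ, ω ^ N = 1 → ∀ x ∈ ball (0:ℂ) 1, F (ω * x) = F x) :
    ∃ G : ℂ → ℂ, DifferentiableOn ℂ G (ball 0 1) ∧ (∀ x ∈ ball (0:ℂ) 1, F x = G (x ^ N)) ∧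
      (∀ k, tc G k = tc F (k * N)) ∧ ∀ j, ¬ N ∣ j → tc F j = 0 := by
  set ω : ℂ := Complex.exp (2 * Real.pi * I / N) with hω
  have hprim : IsPrimitiveRoot ω N := Complex.isPrimitiveRoot_exp N (by omega)
  have hzero : ∀ j, ¬ N ∣ j → tc F j = 0 := by
    intro j hj
    have h1 : (fun j => tc F j * ω ^ j) = tc F := by
      apply tc_unique one_pos hF
      filter_upwards [ball_mem_nhds (0:ℂ) one_pos] with x hx
      have hωx : ω * x ∈ ball (0:ℂ) 1 := by
        rw [mem_ball_zero_iff, norm_mul]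
        have : ‖ω‖ = 1 := hprim.norm'_eq_one (by omega)
        rw [this, one_mul]; exact mem_ball_zero_iff.mp hx
      have h2 := hasSum_tc hF hωx
      rw [hsym ω hprim.pow_eq_one x hx] at h2
      have e : (fun k : ℕ => tc F k * ω ^ k * x ^ k) = fun k => tc F k * (ω * x) ^ k := by
        funext k
        rw [mul_pow]; ring
      rw [e]
      exact h2
    have h3 : tc F j * ω ^ j = tc F j := congrFun h1 j
    have h4 : ω ^ j ≠ 1 := fun h => hj ((hprim.pow_eq_one_iff_dvd j).mp h)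
    have h5 : tc F j * (ω ^ j - 1) = 0 := by rw [mul_sub, h3, mul_one, sub_self]
    exact (mul_eq_zero.mp h5).resolve_right (sub_ne_zero.mpr h4)
  have hroot : ∀ X ∈ ball (0:ℂ) 1, ∃ x ∈ ball (0:ℂ) 1, x ^ N = X := by
    intro X hX
    obtain ⟨x, hx⟩ := IsAlgClosed.exists_pow_nat_eq X (show 0 < N by omega)
    refine ⟨x, ?_, hx⟩
    rw [mem_ball_zero_iff] at hX ⊢
    rw [← hx, norm_pow] at hX
    exact (pow_lt_one_iff_of_nonneg (norm_nonneg x) (by omega)).mp hX
  have hsum : ∀ x ∈ ball (0:ℂ) 1, HasSum (fun k : ℕ => tc F (k * N) * (x ^ N) ^ k) (F x) := by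
    intro x hx
    have h1 := hasSum_tc hF hx
    have hinj : Function.Injective (fun k : ℕ => k * N) := fun a b h => Nat.eq_of_mul_eq_mul_right (by omega) h
    have h2 := (hinj.hasSum_iff (f := fun j => tc F j * x ^ j) (a := F x) (by
      intro j hj
      rw [hzero j, zero_mul]
      rintro ⟨m, hm⟩
      exact hj ⟨m, by simp only; rw [hm, mul_comm]⟩)).mpr h1
    have e : (fun k : ℕ => tc F (k * N) * (x ^ N) ^ k) = (fun j => tc F j * x ^ j) ∘ (fun k : ℕ => k * N) := by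
      funext k
      simp only [Function.comp_apply]
      rw [← pow_mul, mul_comm k N]
    rw [e]
    exact h2
  set p : FormalMultilinearSeries ℂ ℂ ℂ := FormalMultilinearSeries.ofScalars ℂ (fun k => tc F (k * N)) with hp
  set G : ℂ → ℂ := fun X => ∑' k : ℕ, tc F (k * N) * X ^ k with hG
  have hGsum : ∀ X ∈ ball (0:ℂ) 1, HasSum (fun k : ℕ => tc F (k * N) * X ^ k) (G X) := by
    intro X hX
    obtain ⟨x, hx, rfl⟩ := hroot X hX
    exact (hsum x hx).summable.hasSum
  have hGF : ∀ x ∈ ball (0:ℂ) 1, F x = G (x ^ N) := fun x hx => ((hsum x hx).tsum_eq).symm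
  have hGd : DifferentiableOn ℂ G (ball 0 1) := by
    have hr : (1 : ENNReal) ≤ p.radius := by
      apply le_of_forall_lt
      intro r hr
      lift r to NNReal using (lt_top_iff_ne_top.mp (hr.trans ENNReal.one_lt_top))
      have hr1 : (r:ℝ) < 1 := by exact_mod_cast hr
      obtain ⟨s, hs1, hs2⟩ := exists_between hr1
      have hs0 : 0 ≤ s := le_trans r.coe_nonneg hs1.le
      have hsb : ((s:ℝ):ℂ) ∈ ball (0:ℂ) 1 := by
        rw [mem_ball_zero_iff, Complex.norm_real, Real.norm_eq_abs, abs_of_nonneg hs0]; exact hs2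
      have h1 := (hGsum _ hsb).summable.norm
      set s' : NNReal := Subtype.mk s hs0 with hs'
      have h2 : (s' : ENNReal) ≤ p.radius := by
        apply p.le_radius_of_summable
        refine h1.congr fun k => ?_
        rw [norm_mul, norm_pow, Complex.norm_real, Real.norm_eq_abs, abs_of_nonneg hs0, hp]
        rw [FormalMultilinearSeries.ofScalars_norm]
        rfl
      refine lt_of_lt_of_le ?_ h2
      rw [ENNReal.coe_lt_coe]
      exact hs1
    have hball : HasFPowerSeriesOnBall G p 0 1 := by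
      refine ⟨hr, one_pos, ?_⟩
      intro y hy
      have hy' : y ∈ ball (0:ℂ) 1 := by
        have := hy
        rw [← ENNReal.ofReal_one, Metric.eball_ofReal] at this
        exact this
      have := hGsum y hy'
      rw [zero_add]
      have e : (fun k : ℕ => (p k) fun _ => y) = fun k => tc F (k * N) * y ^ k := by
        funext k
        rw [hp, FormalMultilinearSeries.ofScalars_apply_eq]
        simp
      rw [e]
      exact this
    have := hball.differentiableOn
    rwa [← ENNReal.ofReal_one, Metric.eball_ofReal] at this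
  refine ⟨G, hGd, hGF, ?_, hzero⟩
  intro k
  have h1 : (fun k => tc F (k * N)) = tc G := by
    apply tc_unique one_pos hGd
    filter_upwards [ball_mem_nhds (0:ℂ) one_pos] with X hX
    exact hGsum X hX
  exact (congrFun h1 k).symm

end Pool.Agent.X201.MB
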