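import Mathlib
import Pool.Agent.X201.MB.Ext

set_option autoImplicit false

open Complex Set Topology Filter Metric N62a1eb23

namespace Pool.Agent.X201.MB

open Pool.Agent.H712R2 Pool.Agent.H713R2

/-! ### Functions with bounded real part -/

theorem deriv_bound {H : ℂ → ℂ} (hd : DifferentiableOn ℂ H (ball 0 1)) {M : ℝ} (hM : 0 < M)
    (hre : ∀ X ∈ ball (0:ℂ) 1, |(H X).re| ≤ M) {Y : ℂ} (hY : Y ∈ ball (0:ℂ) 1) :
    ‖deriv H Y‖ ≤ 4 * M / (1 - ‖Y‖) := by
  have hYn := mem_ball_zero_iff.mp hY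
  set R := 1 - ‖Y‖ with hR
  have hR0 : 0 < R := by rw [hR]; linarith
  have hda : HasDerivAt H (deriv H Y) Y := (hd.differentiableAt (isOpen_ball.mem_nhds hY)).hasDerivAt
  have hmem : ∀ u ∈ ball (0:ℂ) R, Y + u ∈ ball (0:ℂ) 1 := by
    intro u hu
    rw [mem_ball_zero_iff] at hu ⊢
    calc ‖Y + u‖ ≤ ‖Y‖ + ‖u‖ := norm_add_le _ _
      _ < 1 := by rw [hR] at hu; linarith
  have hbc : ∀ u ∈ ball (0:ℂ) R, ‖H (Y + u) - H Y‖ ≤ 2 * (2 * M) * ‖u‖ / (R - ‖u‖) := by
    intro u hu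
    apply Complex.borelCaratheodory_zero (f := fun u => H (Y + u) - H Y) (M := 2 * M) (by positivity)
      _ _ hR0 hu (by simp)
    · apply DifferentiableOn.sub_const
      exact hd.comp (by fun_prop) hmem
    · intro v hv
      simp only [Set.mem_ofPred_eq, Complex.sub_re]
      have h1 := abs_le.mp (hre _ (hmem v hv))
      have h2 := abs_le.mp (hre _ hY)
      linarith
  apply le_of_forall_gt_imp_ge_of_dense
  intro C hC
  have hC0 : 0 ≤ C := le_trans (by positivity) hC.le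
  apply hda.le_of_lip' hC0
  have hcont : Tendsto (fun z : ℂ => 4 * M / (R - ‖z - Y‖)) (𝓝 Y) (𝓝 (4 * M / R)) := by
    have h1 : Tendsto (fun z : ℂ => R - ‖z - Y‖) (𝓝 Y) (𝓝 (R - ‖Y - Y‖)) := by
      have : Continuous fun z : ℂ => R - ‖z - Y‖ := by fun_prop
      exact this.tendsto Y
    rw [sub_self, norm_zero, sub_zero] at h1
    exact tendsto_const_nhds.div h1 hR0.ne'
  filter_upwards [hcont.eventually (gt_mem_nhds hC), ball_mem_nhds Y hR0] with z hz1 hz2
  have hu : z - Y ∈ ball (0:ℂ) R := by rw [mem_ball_zero_iff, ← dist_eq_norm]; exact hz2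
  have h3 := hbc _ hu
  rw [add_sub_cancel] at h3
  refine h3.trans ?_
  have h4 : 2 * (2 * M) * ‖z - Y‖ / (R - ‖z - Y‖) = (4 * M / (R - ‖z - Y‖)) * ‖z - Y‖ := by ring
  rw [h4]
  exact mul_le_mul_of_nonneg_right hz1.le (norm_nonneg _)

theorem log_bound {H : ℂ → ℂ} (hd : DifferentiableOn ℂ H (ball 0 1)) (h0 : H 0 = 0) {M : ℝ}
    (hM : 0 < M) (hre : ∀ X ∈ ball (0:ℂ) 1, |(H X).re| ≤ M) {X : ℂ} (hX : X ∈ ball (0:ℂ) 1) :
    ‖H X‖ ≤ 4 * M * Real.log (1 / (1 - ‖X‖)) := by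
  have hXn := mem_ball_zero_iff.mp hX
  have hseg : ∀ t ∈ Icc (0:ℝ) 1, (t:ℂ) * X ∈ ball (0:ℂ) 1 := by
    intro t ht
    rw [mem_ball_zero_iff, norm_mul, Complex.norm_real, Real.norm_eq_abs, abs_of_nonneg ht.1]
    calc t * ‖X‖ ≤ 1 * ‖X‖ := by gcongr; exact ht.2
      _ < 1 := by linarith
  have hpos : ∀ t ∈ Icc (0:ℝ) 1, 0 < 1 - t * ‖X‖ := by
    intro t ht
    have h1 : t * ‖X‖ ≤ 1 * ‖X‖ := by gcongr; exact ht.2
    linarith
  have hder : ∀ t ∈ Icc (0:ℝ) 1, HasDerivAt (fun t : ℝ => H ((t:ℂ) * X)) (deriv H ((t:ℂ) * X) * X) t := by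
    intro t ht
    have h1 : HasDerivAt H (deriv H ((t:ℂ) * X)) ((t:ℂ) * X) :=
      (hd.differentiableAt (isOpen_ball.mem_nhds (hseg t ht))).hasDerivAt
    have h2 : HasDerivAt (fun t : ℝ => (t:ℂ) * X) X t := by
      simpa using (Complex.ofRealCLM.hasDerivAt (x := t)).mul_const X
    exact h1.comp t h2
  have hB : ∀ t ∈ Icc (0:ℝ) 1, HasDerivAt (fun t : ℝ => -(4 * M) * Real.log (1 - t * ‖X‖))
      (4 * M * ‖X‖ / (1 - t * ‖X‖)) t := by
    intro t ht
    have h1 : HasDerivAt (fun t : ℝ => 1 - t * ‖X‖) (-‖X‖) t := by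
      simpa using ((hasDerivAt_id t).mul_const ‖X‖).const_sub 1
    have h2 := (h1.log (hpos t ht).ne').const_mul (-(4 * M))
    refine h2.congr_deriv ?_
    ring
  have hmain := image_norm_le_of_norm_deriv_right_le_deriv_boundary' (a := 0) (b := 1)
    (f := fun t : ℝ => H ((t:ℂ) * X)) (f' := fun t => deriv H ((t:ℂ) * X) * X)
    (B := fun t : ℝ => -(4 * M) * Real.log (1 - t * ‖X‖)) (B' := fun t => 4 * M * ‖X‖ / (1 - t * ‖X‖))
    (fun t ht => (hder t ht).continuousAt.continuousWithinAt)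
    (fun t ht => (hder t (Ico_subset_Icc_self ht)).hasDerivWithinAt)
    (by simp [h0])
    (fun t ht => (hB t ht).continuousAt.continuousWithinAt)
    (fun t ht => (hB t (Ico_subset_Icc_self ht)).hasDerivWithinAt)
    (fun t ht => by
      have h1 := deriv_bound hd hM hre (hseg t (Ico_subset_Icc_self ht))
      have h2 : ‖(t:ℂ) * X‖ = t * ‖X‖ := by
        rw [norm_mul, Complex.norm_real, Real.norm_eq_abs, abs_of_nonneg ht.1]
      rw [h2] at h1
      rw [norm_mul]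
      calc ‖deriv H ((t:ℂ) * X)‖ * ‖X‖ ≤ 4 * M / (1 - t * ‖X‖) * ‖X‖ := by gcongr
        _ = _ := by ring)
  have h1 := hmain (right_mem_Icc.mpr zero_le_one)
  simp only [Complex.ofReal_one, one_mul] at h1
  rw [one_div, Real.log_inv]
  linarith

/-- logarithms on the disc -/
theorem exists_log_disc {Q : ℂ → ℂ} (hd : DifferentiableOn ℂ Q (ball 0 1)) (h0 : Q 0 = 1)
    (hne : ∀ X ∈ ball (0:ℂ) 1, Q X ≠ 0) : ∃ H : ℂ → ℂ, DifferentiableOn ℂ H (ball 0 1) ∧ H 0 = 0 ∧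
      ∀ X ∈ ball (0:ℂ) 1, Complex.exp (H X) = Q X := by
  have hcm : (0:ℂ) ∈ ball (0:ℂ) 1 := mem_ball_self one_pos
  have hd' : DifferentiableOn ℂ (fun z => deriv Q z / Q z) (ball 0 1) :=
    (hd.deriv isOpen_ball).div hd hne
  obtain ⟨L, hLc, hL⟩ := hd'.isExactOn_ball.with_val_at 0 0
  have hdh : ∀ z ∈ ball (0:ℂ) 1, HasDerivAt Q (deriv Q z) z := fun z hz =>
    ((hd z hz).differentiableAt (isOpen_ball.mem_nhds hz)).hasDerivAt
  have hcd : ∀ z ∈ ball (0:ℂ) 1, HasDerivAt (fun z => Q z * exp (-L z)) 0 z := by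
    intro z hz
    have h1 := (hdh z hz).mul ((hL z hz).neg.cexp)
    refine h1.congr_deriv ?_
    have := hne z hz
    field_simp
    simp
  refine ⟨L, fun z hz => (hL z hz).differentiableAt.differentiableWithinAt, hLc, ?_⟩
  intro z hz
  have h2 : (fun z => Q z * exp (-L z)) z = (fun z => Q z * exp (-L z)) 0 := by
    apply isOpen_ball.is_const_of_deriv_eq_zero (convex_ball (0:ℂ) 1).isPreconnected
      (f := fun z => Q z * exp (-L z))
      (fun w hw => (hcd w hw).differentiableAt.differentiableWithinAt)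
      (fun w hw => (hcd w hw).deriv) hz hcm
  simp only [hLc, neg_zero, exp_zero, mul_one, h0] at h2
  rw [Complex.exp_neg] at h2
  field_simp [Complex.exp_ne_zero] at h2
  exact h2.symm

/-! ### The two inclusions -/

theorem incl_upper {n : ℕ} (hn : 2 ≤ n) {c : ℂ} (hc : c ∈ multibrotSet n) :
    ‖1 + c ^ (n - 1)‖ ^ (n - 1) ≤ 2 * n := by
  have hnr : (2:ℝ) ≤ n := by exact_mod_cast hn
  have hn0 : (0:ℝ) < n := by linarith
  have h1 := Pool.Agent.H749R2.Hyp.z2_le hn hc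
  by_cases ht : 1 / (n:ℝ) ≤ ‖c‖ ^ (n - 1)
  · have h2 : 1 / (n:ℝ) * ‖1 + c ^ (n - 1)‖ ^ (n - 1) ≤ 2 :=
      (mul_le_mul_of_nonneg_right ht (by positivity)).trans h1
    rw [one_div, inv_mul_le_iff₀ hn0] at h2
    linarith
  · push Not at ht
    have h2 : ‖1 + c ^ (n - 1)‖ ≤ 1 + 1 / n := by
      calc ‖1 + c ^ (n - 1)‖ ≤ ‖(1:ℂ)‖ + ‖c ^ (n - 1)‖ := norm_add_le _ _
        _ ≤ 1 + 1 / n := by rw [norm_one, norm_pow]; linarith
    calc ‖1 + c ^ (n - 1)‖ ^ (n - 1) ≤ (1 + 1 / (n:ℝ)) ^ (n - 1) := by gcongr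
      _ ≤ Real.exp 1 := Pool.Agent.H749R2.Hyp.one_add_div_pow_le (by omega) (by norm_num) (by omega)
      _ ≤ 2 * n := by
        have := Real.exp_one_lt_d9
        linarith

/-- the width of the lower estimate -/
noncomputable def del (n : ℕ) : ℝ := (2 * Real.log n + 6) / ((n:ℝ) - 1)

theorem incl_lower {n : ℕ} (hn : 2 ≤ n) {c : ℂ} (hc : ‖1 + c ^ (n - 1)‖ ≤ 1 - del n) :
    c ∈ multibrotSet n := by
  have hnr : (2:ℝ) ≤ n := by exact_mod_cast hn
  have hn0 : (0:ℝ) < n := by linarith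
  have hn1 : (0:ℝ) < n - 1 := by linarith
  have hN1 : ((n - 1 : ℕ) : ℝ) = n - 1 := by rw [Nat.cast_sub (by omega)]; simp
  have hlog : 0 ≤ Real.log n := Real.log_nonneg (by linarith)
  set ζ := ‖1 + c ^ (n - 1)‖ with hζ
  set t := ‖c‖ ^ (n - 1) with ht
  have hζ0 : 0 ≤ ζ := norm_nonneg _
  have hdel : del n * (n - 1) = 2 * Real.log n + 6 := by
    unfold del; field_simp
  have ht1 : 1 - ζ ≤ t := by
    have h5 := norm_sub_le (1 + c ^ (n - 1)) (c ^ (n - 1))
    rw [add_sub_cancel_right, norm_one, norm_pow] at h5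
    linarith
  have ht2 : t ≤ 1 + ζ := by
    have h5 := norm_sub_le (1 + c ^ (n - 1)) 1
    rw [add_sub_cancel_left, norm_one, norm_pow] at h5
    linarith
  have hdel0 : 0 < del n := by unfold del; positivity
  apply Pool.Agent.H749R2.Area.mem_multibrot_of_P2 hn
  · have h1 : del n ≤ t := by linarith
    have h2 : 6 ≤ n * t := by nlinarith
    have h3 := Real.exp_one_gt_d9
    rw [← ht]
    nlinarith
  · rw [← ht, ← hζ]
    have h1 : (ζ + 2 / n) ^ (n - 1) ≤ Real.exp (-(2 * Real.log n + 4)) := by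
      have h2 : ζ + 2 / n ≤ Real.exp (-(del n - 2 / n)) := by
        have := Real.add_one_le_exp (-(del n - 2 / n))
        linarith
      calc (ζ + 2 / n) ^ (n - 1) ≤ (Real.exp (-(del n - 2 / n))) ^ (n - 1) := by gcongr
        _ = Real.exp (((n - 1 : ℕ) : ℝ) * -(del n - 2 / n)) := by rw [← Real.exp_nat_mul]
        _ ≤ Real.exp (-(2 * Real.log n + 4)) := by
          apply Real.exp_le_exp.mpr
          rw [hN1]
          have h3 : 2 / (n:ℝ) * (n - 1) ≤ 2 := by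
            rw [div_mul_eq_mul_div, div_le_iff₀ hn0]; linarith
          nlinarith
    have h2 : Real.exp (-(2 * Real.log n + 4)) = 1 / n ^ 2 * Real.exp (-4) := by
      rw [neg_add, Real.exp_add]
      congr 1
      rw [Real.exp_neg, show (2:ℝ) * Real.log n = ((2:ℕ):ℝ) * Real.log n by norm_num,
        Real.exp_nat_mul, Real.exp_log hn0, one_div]
    have h3 : Real.exp (-4) < 1 / 32 := by
      rw [Real.exp_neg, ← one_div]
      apply one_div_lt_one_div_of_lt (by norm_num)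
      have : Real.exp 4 = (Real.exp 1) ^ 4 := by rw [← Real.exp_nat_mul]; norm_num
      rw [this]
      calc (32:ℝ) < 2.7182818283 ^ 4 := by norm_num
        _ ≤ (Real.exp 1) ^ 4 := by
          have := Real.exp_one_gt_d9
          gcongr
    have h4 : (n * t) ^ 2 ≤ 4 * n ^ 2 := by
      have : n * t ≤ n * 2 := by
        apply mul_le_mul_of_nonneg_left _ hn0.le
        linarith
      have h5 : 0 ≤ n * t := by positivity
      nlinarith
    rw [h2] at h1
    calc (n * t) ^ 2 * (ζ + 2 / n) ^ (n - 1) ≤ (4 * n ^ 2) * (1 / n ^ 2 * Real.exp (-4)) := by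
          apply mul_le_mul h4 h1 (by positivity) (by positivity)
      _ = 4 * Real.exp (-4) := by field_simp
      _ < 1 / 8 := by linarith

theorem del_le {n : ℕ} (hn : 32 ≤ n) : del n ≤ 1 / 2 := by
  have hnr : (32:ℝ) ≤ n := by exact_mod_cast hn
  have h1 : Real.log (n / 32) ≤ n / 32 - 1 := Real.log_le_sub_one_of_pos (by positivity)
  rw [Real.log_div (by positivity) (by norm_num), show (32:ℝ) = 2 ^ 5 by norm_num, Real.log_pow] at h1
  have h2 := Real.log_two_lt_d9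
  unfold del
  rw [div_le_iff₀ (by linarith)]
  push_cast at h1
  linarith

/-- The main estimate, in the coordinate `X = w ^ (-(n - 1))`. -/
theorem main_est {n : ℕ} (hn : 32 ≤ n) {β : ℂ → ℂ} (hβ : IsBeta n β) {B : ℂ → ℂ}
    (hB : DifferentiableOn ℂ B (ball 0 1)) (hBβ : ∀ x ∈ ball (0:ℂ) 1, β x = B (x ^ (n - 1))) :
    ∃ H : ℂ → ℂ, DifferentiableOn ℂ H (ball 0 1) ∧ H 0 = 0 ∧
      (∀ X ∈ ball (0:ℂ) 1, Complex.exp (H X) = B X ^ (n - 1) + X) ∧
      (∀ X ∈ ball (0:ℂ) 1, |(H X).re| ≤ 2 * del n) := by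
  have hn2 : 2 ≤ n := by omega
  have hnr : (32:ℝ) ≤ n := by exact_mod_cast hn
  have hn1 : (0:ℝ) < n - 1 := by linarith
  have hN1 : ((n - 1 : ℕ) : ℝ) = n - 1 := by rw [Nat.cast_sub (by omega)]; simp
  have hN : n - 1 ≠ 0 := by omega
  have hdel := del_le hn
  have hdel0 : 0 < del n := by
    unfold del
    have : 0 ≤ Real.log n := Real.log_nonneg (by linarith)
    positivity
  set Q : ℂ → ℂ := fun X => B X ^ (n - 1) + X with hQ
  have hQd : DifferentiableOn ℂ Q (ball 0 1) := (hB.pow _).add differentiableOn_id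
  have hB0 : B 0 = 1 := by
    have := hBβ 0 (mem_ball_self one_pos)
    rw [zero_pow hN, hβ.zero] at this
    exact this.symm
  have hQ0 : Q 0 = 1 := by simp [hQ, hB0]
  have hroot : ∀ X ∈ ball (0:ℂ) 1, X ≠ 0 → ∃ x ∈ ball (0:ℂ) 1, x ≠ 0 ∧ x ^ (n - 1) = X ∧
      Q X = X * (1 + (x⁻¹ * β x) ^ (n - 1)) := by
    intro X hX hX0
    obtain ⟨x, hx⟩ := IsAlgClosed.exists_pow_nat_eq X (show 0 < n - 1 by omega)
    have hxb : x ∈ ball (0:ℂ) 1 := by
      rw [mem_ball_zero_iff] at hX ⊢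
      rw [← hx, norm_pow] at hX
      exact (pow_lt_one_iff_of_nonneg (norm_nonneg x) hN).mp hX
    refine ⟨x, hxb, ?_, hx, ?_⟩
    · rintro rfl
      rw [zero_pow hN] at hx
      exact hX0 hx.symm
    · rw [hBβ x hxb, hx, mul_pow, inv_pow, hx]
      simp only [hQ]
      field_simp
      ring
  have hlow : ∀ X ∈ ball (0:ℂ) 1, X ≠ 0 → (1 - del n) * ‖X‖ ≤ ‖Q X‖ := by
    intro X hX hX0
    obtain ⟨x, hxb, hx0, hxX, hQX⟩ := hroot X hX hX0
    have h1 := hβ.notMem x hxb hx0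
    have h2 : 1 - del n < ‖1 + (x⁻¹ * β x) ^ (n - 1)‖ := by
      by_contra hcon
      push Not at hcon
      exact h1 (incl_lower hn2 hcon)
    rw [hQX, norm_mul, mul_comm]
    exact mul_le_mul_of_nonneg_left h2.le (norm_nonneg _)
  have hne : ∀ X ∈ ball (0:ℂ) 1, Q X ≠ 0 := by
    intro X hX h
    by_cases hX0 : X = 0
    · rw [hX0, hQ0] at h; exact one_ne_zero h
    · have h1 := hlow X hX hX0
      rw [h, norm_zero] at h1
      have h2 : 0 < ‖X‖ := norm_pos_iff.mpr hX0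
      nlinarith
  -- lower bound on the whole disc
  have hlow' : ∀ X ∈ ball (0:ℂ) 1, 1 - del n ≤ ‖Q X‖ := by
    intro X hX
    have hd1 : DifferentiableOn ℂ (fun X => (Q X)⁻¹) (ball 0 1) := hQd.inv hne
    have h1 : ‖(Q X)⁻¹‖ ≤ 1 / (1 - del n) := by
      apply max_disc hd1 _ hX
      intro η hη
      set K := 1 / (1 - del n) with hK
      have hK0 : 0 < K := by rw [hK]; apply one_div_pos.mpr; linarith
      refine ⟨K / (K + η), ?_, ?_⟩
      · rw [div_lt_one (by positivity)]; linarith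
      · intro Y hY hrY
        have hY0 : 0 < ‖Y‖ := lt_of_lt_of_le (by positivity) hrY
        have h2 := hlow Y hY (norm_pos_iff.mp hY0)
        rw [norm_inv]
        have h3 : 0 < (1 - del n) * ‖Y‖ := mul_pos (by linarith) hY0
        calc ‖Q Y‖⁻¹ ≤ ((1 - del n) * ‖Y‖)⁻¹ := inv_anti₀ h3 h2
          _ = K / ‖Y‖ := by rw [hK]; field_simp
          _ ≤ K + η := by
            rw [div_le_iff₀ hY0]
            rw [div_le_iff₀ (by positivity)] at hrY
            linarith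
    rw [norm_inv, one_div] at h1
    have h2 : 0 < ‖Q X‖ := norm_pos_iff.mpr (hne X hX)
    exact (inv_le_inv₀ h2 (by linarith)).mp h1
  -- upper bound
  set A := Real.exp (Real.log (2 * n) / (n - 1)) with hA
  have hAM : ∀ c ∈ multibrotSet n, ‖1 + c ^ (n - 1)‖ ≤ A := by
    intro c hc
    have h1 := incl_upper hn2 hc
    have h2 : A ^ (n - 1) = 2 * n := by
      rw [hA, ← Real.exp_nat_mul, hN1, mul_div_cancel₀ _ hn1.ne', Real.exp_log (by positivity)]
    rw [← h2] at h1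
    exact (pow_le_pow_iff_left₀ (norm_nonneg _) (Real.exp_pos _).le hN).mp h1
  have hup : ∀ X ∈ ball (0:ℂ) 1, ‖Q X‖ ≤ A := by
    intro X hX
    apply max_disc hQd _ hX
    intro η hη
    obtain ⟨r, hr0, hr1, hr⟩ := near_boundary hβ (g := fun c => ‖1 + c ^ (n - 1)‖) (by fun_prop) hAM hη
    refine ⟨r ^ (n - 1), pow_lt_one₀ hr0.le hr1 hN, ?_⟩
    intro Y hY hrY
    have hY0 : 0 < ‖Y‖ := lt_of_lt_of_le (by positivity) hrY
    obtain ⟨x, hxb, hx0, hxX, hQX⟩ := hroot Y hY (norm_pos_iff.mp hY0)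
    have h1 : r ≤ ‖x‖ := by
      rw [← hxX, norm_pow] at hrY
      exact (pow_le_pow_iff_left₀ hr0.le (norm_nonneg _) hN).mp hrY
    have h2 := hr x hxb h1
    rw [hQX, norm_mul]
    have h3 : ‖Y‖ ≤ 1 := (mem_ball_zero_iff.mp hY).le
    calc ‖Y‖ * ‖1 + (x⁻¹ * β x) ^ (n - 1)‖ ≤ 1 * (A + η) := by
          apply mul_le_mul h3 h2.le (norm_nonneg _) (by norm_num)
      _ = A + η := one_mul _
  obtain ⟨H, hHd, hH0, hHe⟩ := exists_log_disc hQd hQ0 hne
  refine ⟨H, hHd, hH0, hHe, ?_⟩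
  intro X hX
  have h1 : (H X).re = Real.log ‖Q X‖ := by
    rw [← hHe X hX, Complex.norm_exp, Real.log_exp]
  have hpos : 0 < ‖Q X‖ := norm_pos_iff.mpr (hne X hX)
  rw [h1, abs_le]
  constructor
  · have h2 := Real.log_le_log (show (0:ℝ) < 1 - del n by linarith) (hlow' X hX)
    refine le_trans ?_ h2
    have h3 := Real.one_sub_inv_le_log_of_pos (show (0:ℝ) < 1 - del n by linarith)
    refine le_trans ?_ h3
    have h4 : (1 - del n)⁻¹ ≤ 1 + 2 * del n := by
      rw [inv_le_iff_one_le_mul₀ (by linarith)]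
      nlinarith
    linarith
  · have h2 := Real.log_le_log hpos (hup X hX)
    rw [hA, Real.log_exp] at h2
    refine h2.trans ?_
    have h3 : Real.log (2 * n) = Real.log 2 + Real.log n := Real.log_mul (by norm_num) (by positivity)
    have h4 := Real.log_two_lt_d9
    have h5 : 0 ≤ Real.log n := Real.log_nonneg (by linarith)
    unfold del
    rw [h3, ← mul_div_assoc]
    gcongr
    linarith

end Pool.Agent.X201.MB
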