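import Mathlib
import Pool.Agent.X201.MB.Asy

set_option autoImplicit false

open Complex Set Topology Filter Metric N62a1eb23

namespace Pool.Agent.X201.MB

open Pool.Agent.H712R2 Pool.Agent.H713R2

theorem exp_sub_one_le {z : ℂ} (hz : |z.re| ≤ 1) : ‖Complex.exp z - 1‖ ≤ 4 * ‖z‖ := by
  rcases le_total ‖z‖ 1 with h | h
  · have h1 := Complex.norm_exp_sub_one_le h
    have h2 := norm_nonneg z
    linarith
  · have h1 : ‖Complex.exp z‖ ≤ Real.exp 1 := by
      rw [Complex.norm_exp]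
      exact Real.exp_le_exp.mpr ((le_abs_self _).trans hz)
    have h2 := Real.exp_one_lt_d9
    have h3 := norm_sub_le (Complex.exp z) 1
    rw [norm_one] at h3
    linarith

/-- all the data for one degree -/
theorem data {n : ℕ} (hn : 32 ≤ n) {β : ℂ → ℂ} (hβ : IsBeta n β) :
    ∃ B : ℂ → ℂ, DifferentiableOn ℂ B (ball 0 1) ∧ (∀ x ∈ ball (0:ℂ) 1, β x = B (x ^ (n - 1))) ∧
      (∀ k, tc B k = tc β (k * (n - 1))) ∧ (∀ j, ¬ (n - 1) ∣ j → tc β j = 0) ∧
      ∀ X ∈ ball (0:ℂ) 1, ‖B X ^ (n - 1) + X - 1‖ ≤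
        64 * (Real.log n + 3) / ((n:ℝ) - 1) * Real.log (1 / (1 - ‖X‖)) := by
  have hn2 : 2 ≤ n := by omega
  have hnr : (32:ℝ) ≤ n := by exact_mod_cast hn
  have hn1 : (0:ℝ) < n - 1 := by linarith
  obtain ⟨B, hB, hBβ, hBt, hβt⟩ := exists_factor (N := n - 1) (by omega) hβ.diff
    (fun ω hω x hx => beta_symm hn2 hβ hω hx)
  refine ⟨B, hB, hBβ, hBt, hβt, ?_⟩
  obtain ⟨H, hHd, hH0, hHe, hHr⟩ := main_est hn hβ hB hBβ
  intro X hX
  have hdel := del_le hn
  have hdel0 : 0 < del n := by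
    unfold del
    have : 0 ≤ Real.log n := Real.log_nonneg (by linarith)
    positivity
  have h1 := log_bound hHd hH0 (M := 2 * del n) (by positivity) hHr hX
  have h2 := exp_sub_one_le (z := H X) ((hHr X hX).trans (by linarith))
  rw [hHe X hX] at h2
  refine h2.trans ?_
  have h3 : 4 * ‖H X‖ ≤ 4 * (4 * (2 * del n) * Real.log (1 / (1 - ‖X‖))) := by linarith
  refine h3.trans (le_of_eq ?_)
  unfold del
  field_simp
  ring

/-- Asymptotics of the exterior maps. -/
theorem ext_asym {n : ℕ} (hn : 32 ≤ n) {ψ : ℂ → ℂ} (hψ : IsExteriorMap (multibrotSet n) ψ) {w : ℂ}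
    (hw : 1 < ‖w‖) : ‖ψ w ^ (n - 1) - (w ^ (n - 1) - 1)‖ ≤
      64 * (Real.log n + 3) / ((n:ℝ) - 1) * (‖w‖ ^ (n - 1) * Real.log (1 / (1 - 1 / ‖w‖ ^ (n - 1)))) := by
  have hn2 : 2 ≤ n := by omega
  obtain ⟨β, hβ⟩ := exists_beta hn2
  obtain ⟨B, hB, hBβ, -, -, hest⟩ := data hn hβ
  obtain ⟨hx, hx0⟩ := inv_mem_ball hw
  have hw0 : w ≠ 0 := fun h => hx0 (by rw [h, inv_zero])
  have h1 := exteriorMap_unique hβ hψ hw
  have hX : (w⁻¹) ^ (n - 1) ∈ ball (0:ℂ) 1 := by
    rw [mem_ball_zero_iff, norm_pow]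
    exact pow_lt_one₀ (norm_nonneg _) (mem_ball_zero_iff.mp hx) (by omega)
  have h2 := hest _ hX
  have hXn : ‖(w⁻¹) ^ (n - 1)‖ = 1 / ‖w‖ ^ (n - 1) := by
    rw [norm_pow, norm_inv, inv_pow, one_div]
  rw [hXn] at h2
  have hwp : w ^ (n - 1) ≠ 0 := pow_ne_zero _ hw0
  have h3 : ψ w ^ (n - 1) - (w ^ (n - 1) - 1) = w ^ (n - 1) * (B ((w⁻¹) ^ (n - 1)) ^ (n - 1) + (w⁻¹) ^ (n - 1) - 1) := by
    rw [h1, hBβ _ hx, mul_pow, inv_pow]
    field_simp
    ring
  rw [h3, norm_mul, norm_pow]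
  calc ‖w‖ ^ (n - 1) * ‖B ((w⁻¹) ^ (n - 1)) ^ (n - 1) + (w⁻¹) ^ (n - 1) - 1‖
      ≤ ‖w‖ ^ (n - 1) * (64 * (Real.log n + 3) / ((n:ℝ) - 1) * Real.log (1 / (1 - 1 / ‖w‖ ^ (n - 1)))) := by
        gcongr
    _ = _ := by ring

/-! ### Coefficients -/

theorem small_log {G : ℂ → ℂ} (hG : DifferentiableOn ℂ G (ball 0 1)) (hG0 : G 0 = 0) {r : ℝ}
    (hr : r < 1) (h : ∀ X : ℂ, ‖X‖ ≤ r → ‖Complex.exp (G X) - 1‖ ≤ 1 / 2) {X : ℂ} (hX : ‖X‖ ≤ r) :
    ‖G X‖ ≤ 3 / 2 * ‖Complex.exp (G X) - 1‖ := by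
  have hseg : ∀ t ∈ Icc (0:ℝ) 1, ‖(t:ℂ) * X‖ ≤ r := by
    intro t ht
    rw [norm_mul, Complex.norm_real, Real.norm_eq_abs, abs_of_nonneg ht.1]
    calc t * ‖X‖ ≤ 1 * ‖X‖ := by gcongr; exact ht.2
      _ ≤ r := by rw [one_mul]; exact hX
  have hcont : ContinuousOn (fun t : ℝ => (G ((t:ℂ) * X)).im) (Icc 0 1) := by
    apply Complex.continuous_im.comp_continuousOn
    apply hG.continuousOn.comp (by fun_prop)
    intro t ht
    rw [mem_ball_zero_iff]
    exact (hseg t ht).trans_lt hr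
  have hcos : ∀ t ∈ Icc (0:ℝ) 1, Real.cos (G ((t:ℂ) * X)).im ≠ 0 := by
    intro t ht h0
    have h1 := h _ (hseg t ht)
    have h2 := Complex.abs_re_le_norm (Complex.exp (G ((t:ℂ) * X)) - 1)
    rw [Complex.sub_re, Complex.exp_re, h0, mul_zero, Complex.one_re] at h2
    norm_num at h2
    linarith
  have him : |(G X).im| < Real.pi / 2 := by
    by_contra hcon
    push Not at hcon
    have hpi := Real.pi_pos
    have hc2 : ContinuousOn (fun t : ℝ => |(G ((t:ℂ) * X)).im|) (Icc 0 1) := hcont.abs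
    have h1 : Real.pi / 2 ∈ Icc (|(G (((0:ℝ):ℂ) * X)).im|) (|(G (((1:ℝ):ℂ) * X)).im|) := by
      constructor
      · simp [hG0]; positivity
      · simpa using hcon
    obtain ⟨t, ht, hte⟩ := intermediate_value_Icc zero_le_one hc2 h1
    apply hcos t ht
    have hte' : |(G ((t:ℂ) * X)).im| = Real.pi / 2 := hte
    rw [← Real.cos_abs, hte', Real.cos_pi_div_two]
  have h2 := abs_lt.mp him
  have hpi := Real.pi_pos
  have h3 : Complex.log (Complex.exp (G X)) = G X := by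
    apply Complex.log_exp
    · linarith [h2.1]
    · linarith [h2.2]
  have h4 := Complex.norm_log_one_add_half_le_self (z := Complex.exp (G X) - 1) (h X hX)
  rw [add_sub_cancel, h3] at h4
  exact h4

/-- the comparison function `(1 - X) ^ (1 / N)` -/
noncomputable def B0 (N : ℕ) (X : ℂ) : ℂ := Complex.exp (Complex.log (1 - X) / N)

theorem slit {X : ℂ} (hX : X ∈ ball (0:ℂ) 1) : 1 - X ∈ Complex.slitPlane := by
  left
  have h1 := Complex.re_le_norm X
  have h2 := mem_ball_zero_iff.mp hX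
  simp only [Complex.sub_re, Complex.one_re]
  linarith

theorem hasDerivAt_B0 (N : ℕ) {X : ℂ} (hX : X ∈ ball (0:ℂ) 1) :
    HasDerivAt (B0 N) (B0 N X * (-(1 / (1 - X)) / N)) X := by
  have h1 : HasDerivAt (fun X : ℂ => 1 - X) (-1) X := by
    simpa using (hasDerivAt_id X).const_sub 1
  have h2 := ((h1.clog (slit hX)).div_const (N:ℂ)).cexp
  refine h2.congr_deriv ?_
  unfold B0
  ring

theorem B0_diff (N : ℕ) : DifferentiableOn ℂ (B0 N) (ball 0 1) :=
  fun _ hX => (hasDerivAt_B0 N hX).differentiableAt.differentiableWithinAt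

theorem B0_zero (N : ℕ) : B0 N 0 = 1 := by simp [B0]

theorem B0_rec {N : ℕ} (_hN : 1 ≤ N) (k : ℕ) :
    ((k:ℂ) + 1) * tc (B0 N) (k + 1) = ((k:ℂ) - 1 / N) * tc (B0 N) k := by
  have hd := B0_diff N
  have hd' := hd.deriv isOpen_ball
  have hxd : DifferentiableOn ℂ (fun x => x * deriv (B0 N) x) (ball 0 1) :=
    differentiableOn_id.mul hd'
  have h1 : tc (fun x => deriv (B0 N) x - x * deriv (B0 N) x) k = tc (fun x => (-(1 / (N:ℂ))) * B0 N x) k := by
    have e : (fun x => deriv (B0 N) x - x * deriv (B0 N) x) =ᶠ[𝓝 0] (fun x => (-(1 / (N:ℂ))) * B0 N x) := by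
      filter_upwards [ball_mem_nhds (0:ℂ) one_pos] with x hx
      rw [(hasDerivAt_B0 N hx).deriv]
      have h2 : (1:ℂ) - x ≠ 0 := Complex.slitPlane_ne_zero (slit hx)
      field_simp
      ring
    unfold tc
    rw [e.iteratedDeriv_eq]
  rw [tc_sub one_pos hd' hxd, tc_deriv, tc_id_mul_deriv hd] at h1
  have h2 : tc (fun x => (-(1 / (N:ℂ))) * B0 N x) k = (-(1 / (N:ℂ))) * tc (B0 N) k := by
    have h := tc_unique (a := fun k => (-(1 / (N:ℂ))) * tc (B0 N) k) (F := fun x => (-(1 / (N:ℂ))) * B0 N x)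
      one_pos (hd.const_mul _) ?_
    · rw [← h]
    · filter_upwards [ball_mem_nhds (0 : ℂ) one_pos] with x hx
      simpa only [mul_assoc] using (hasSum_tc hd hx).mul_left (-(1 / (N:ℂ)))
  rw [h2] at h1
  linear_combination h1

theorem B0_coeff {N : ℕ} (hN : 1 ≤ N) (k : ℕ) : ∃ v : ℝ, 0 ≤ v ∧ v ≤ 1 ∧ 1 - (k:ℝ) / N ≤ v ∧
    (((k:ℂ) + 1) * N) * tc (B0 N) (k + 1) = -(v:ℂ) := by
  have hNr : (1:ℝ) ≤ N := by exact_mod_cast hN
  have hN0 : (N:ℂ) ≠ 0 := by exact_mod_cast (by omega : N ≠ 0)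
  induction k with
  | zero =>
    refine ⟨1, by norm_num, le_rfl, by simp, ?_⟩
    have h1 := B0_rec hN 0
    rw [tc_zero, B0_zero] at h1
    simp only [Nat.cast_zero, zero_add, zero_sub, mul_one, one_mul] at h1
    rw [zero_add, Nat.cast_zero, zero_add, one_mul, h1]
    push_cast
    field_simp
  | succ k ih =>
    obtain ⟨v, hv0, hv1, hvk, hv⟩ := ih
    have hk0 : (0:ℝ) < (k:ℝ) + 1 := by positivity
    have hfac0 : 0 ≤ 1 - 1 / ((N:ℝ) * (k + 1)) := by
      have : 1 / ((N:ℝ) * (k + 1)) ≤ 1 := by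
        rw [div_le_one (by positivity)]
        nlinarith [Nat.cast_nonneg (α := ℝ) k]
      linarith
    have hfac1 : 1 / ((N:ℝ) * (k + 1)) ≤ 1 / N := by
      apply one_div_le_one_div_of_le (by positivity)
      nlinarith [Nat.cast_nonneg (α := ℝ) k]
    have hpos : 0 ≤ 1 / ((N:ℝ) * (k + 1)) := by positivity
    refine ⟨v * (1 - 1 / (N * (k + 1))), by positivity, ?_, ?_, ?_⟩
    · nlinarith
    · have e : ((k + 1 : ℕ) : ℝ) / N = (k:ℝ) / N + 1 / N := by push_cast; ring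
      rw [e]
      nlinarith
    · have h1 := B0_rec hN (k + 1)
      push_cast at h1 ⊢
      have hk1 : ((k:ℂ) + 1) ≠ 0 := by exact_mod_cast Nat.succ_ne_zero k
      have h2 : ((k:ℂ) + 1 + 1) * N * tc (B0 N) (k + 1 + 1) = N * (((k:ℂ) + 1 - 1 / N) * tc (B0 N) (k + 1)) := by
        rw [← h1]; ring
      rw [h2]
      have h3 : tc (B0 N) (k + 1) = -(v:ℂ) / (((k:ℂ) + 1) * N) := by
        rw [eq_div_iff (mul_ne_zero hk1 hN0)]
        rw [← hv]; ring
      rw [h3]
      field_simp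

/-- Asymptotics of the Laurent coefficients, in terms of `B`. -/
theorem coeff_asym {n : ℕ} (hn : 32 ≤ n) {β : ℂ → ℂ} (hβ : IsBeta n β) {k : ℕ} (hk : 1 ≤ k)
    (hkn : 128 * (Real.log n + 3) * (((k:ℝ) + 1) * Real.log (k + 1)) ≤ (n:ℝ) - 1) :
    ‖((n:ℂ) - 1) * tc β (k * (n - 1)) + 1 / k‖ ≤
      1200 * (Real.log n + 3) * (((k:ℝ) + 1) * Real.log (k + 1)) / ((n:ℝ) - 1) := by
  have hn2 : 2 ≤ n := by omega
  have hnr : (32:ℝ) ≤ n := by exact_mod_cast hn
  have hn1 : (0:ℝ) < n - 1 := by linarith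
  have hNr : ((n - 1 : ℕ) : ℝ) = n - 1 := by rw [Nat.cast_sub (by omega)]; simp
  have hNc : ((n - 1 : ℕ) : ℂ) = n - 1 := by rw [Nat.cast_sub (by omega)]; simp
  have hkr : (1:ℝ) ≤ k := by exact_mod_cast hk
  have hlog : 0 ≤ Real.log n := Real.log_nonneg (by linarith)
  obtain ⟨B, hB, hBβ, hBt, -, hest⟩ := data hn hβ
  set N := n - 1 with hN
  have hN1 : 1 ≤ N := by omega
  have hN0 : N ≠ 0 := by omega
  have hB0 : B 0 = 1 := by
    have := hBβ 0 (mem_ball_self one_pos)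
    rw [zero_pow hN0, hβ.zero] at this
    exact this.symm
  have hBne : ∀ X ∈ ball (0:ℂ) 1, B X ≠ 0 := by
    intro X hX h0
    obtain ⟨x, hx⟩ := IsAlgClosed.exists_pow_nat_eq X (show 0 < N by omega)
    have hxb : x ∈ ball (0:ℂ) 1 := by
      rw [mem_ball_zero_iff] at hX ⊢
      rw [← hx, norm_pow] at hX
      exact (pow_lt_one_iff_of_nonneg (norm_nonneg x) hN0).mp hX
    have h1 := hBβ x hxb
    rw [hx, h0] at h1
    by_cases hx0 : x = 0
    · rw [hx0, hβ.zero] at h1; exact one_ne_zero h1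
    · apply hβ.notMem x hxb hx0
      rw [h1, mul_zero]
      exact disc_subset hn2 (by simpa using (rr_pos hn2).le)
  obtain ⟨L, hLd, hL0, hLe⟩ := exists_log_disc hB hB0 hBne
  -- the function `G`
  set G : ℂ → ℂ := fun X => N * L X - Complex.log (1 - X) with hG
  have hGd : DifferentiableOn ℂ G (ball 0 1) := by
    apply (hLd.const_mul _).sub
    intro X hX
    apply DifferentiableAt.differentiableWithinAt
    exact ((differentiableAt_const 1).sub differentiableAt_id).clog (slit hX)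
  have hG0 : G 0 = 0 := by simp [hG, hL0]
  have hGe : ∀ X ∈ ball (0:ℂ) 1, Complex.exp (G X) - 1 = (B X ^ N + X - 1) / (1 - X) := by
    intro X hX
    have h2 : (1:ℂ) - X ≠ 0 := Complex.slitPlane_ne_zero (slit hX)
    simp only [hG]
    rw [Complex.exp_sub, Complex.exp_log h2, Complex.exp_nat_mul, hLe X hX]
    field_simp
    ring
  have hBG : ∀ X ∈ ball (0:ℂ) 1, B X = B0 N X * Complex.exp (G X / N) := by
    intro X hX
    have hNc0 : (N:ℂ) ≠ 0 := by exact_mod_cast hN0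
    unfold B0
    rw [← Complex.exp_add, ← hLe X hX]
    congr 1
    simp only [hG]
    field_simp
    ring
  set r : ℝ := (k:ℝ) / (k + 1) with hr
  have hr0 : 0 < r := by positivity
  have hr1 : r < 1 := by rw [hr, div_lt_one (by positivity)]; linarith
  have h1r : 1 - r = 1 / ((k:ℝ) + 1) := by rw [hr]; field_simp; ring
  have hlk : 0 ≤ Real.log ((k:ℝ) + 1) := Real.log_nonneg (by linarith)
  set e : ℝ := 64 * (Real.log n + 3) / ((n:ℝ) - 1) * (((k:ℝ) + 1) * Real.log (k + 1)) with he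
  have he0 : 0 ≤ e := by rw [he]; positivity
  have he1 : e ≤ 1 / 2 := by
    have : e = (128 * (Real.log n + 3) * (((k:ℝ) + 1) * Real.log (k + 1))) / ((n:ℝ) - 1) / 2 := by
      rw [he]; ring
    rw [this]
    have h3 : (128 * (Real.log n + 3) * (((k:ℝ) + 1) * Real.log (k + 1))) / ((n:ℝ) - 1) ≤ 1 := by
      rw [div_le_one hn1]; exact hkn
    linarith
  have hEe : ∀ X : ℂ, ‖X‖ ≤ r → ‖Complex.exp (G X) - 1‖ ≤ e := by
    intro X hX
    have hXb : X ∈ ball (0:ℂ) 1 := by rw [mem_ball_zero_iff]; linarith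
    rw [hGe X hXb, norm_div]
    have h3 := hest X hXb
    have h4 : 1 / ((k:ℝ) + 1) ≤ ‖1 - X‖ := by
      have := norm_sub_norm_le (1:ℂ) X
      rw [norm_one] at this
      linarith
    have h5 : Real.log (1 / (1 - ‖X‖)) ≤ Real.log (k + 1) := by
      apply Real.log_le_log
      · apply one_div_pos.mpr; linarith
      · rw [div_le_iff₀ (by linarith)]
        have h6 : 1 / ((k:ℝ) + 1) ≤ 1 - ‖X‖ := by linarith
        rw [div_le_iff₀ (by positivity)] at h6
        linarith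
    have h6 : 0 < 1 / ((k:ℝ) + 1) := by positivity
    calc ‖B X ^ N + X - 1‖ / ‖1 - X‖ ≤
        (64 * (Real.log n + 3) / ((n:ℝ) - 1) * Real.log (k + 1)) / (1 / ((k:ℝ) + 1)) := by
          apply div_le_div₀ (by positivity) (h3.trans (by gcongr)) h6 h4
      _ = e := by rw [he]; field_simp
  have hdiff : ∀ X : ℂ, ‖X‖ ≤ r → ‖B X - B0 N X‖ ≤ 6 * e / N := by
    intro X hX
    have hXb : X ∈ ball (0:ℂ) 1 := by rw [mem_ball_zero_iff]; linarith
    have h3 := small_log hGd hG0 hr1 (fun Y hY => (hEe Y hY).trans he1) hX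
    have h4 := hEe X hX
    have hNpos : (0:ℝ) < N := by exact_mod_cast (by omega : 0 < N)
    have hNge : (1:ℝ) ≤ N := by exact_mod_cast hN1
    have h5 : ‖G X / N‖ ≤ 3 / 2 * e / N := by
      rw [norm_div, Complex.norm_natCast]
      gcongr
      linarith
    have h6 : ‖G X / N‖ ≤ 1 := by
      refine h5.trans ?_
      rw [div_le_one hNpos]
      linarith
    have h7 := Complex.norm_exp_sub_one_le h6
    have h8 : ‖B0 N X‖ ≤ 2 := by
      unfold B0
      rw [Complex.norm_exp]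
      have h9 : (Complex.log (1 - X) / N).re ≤ Real.log 2 := by
        have : (Complex.log (1 - X) / N).re = Real.log ‖1 - X‖ / N := by
          rw [show (N:ℂ) = ((N:ℝ):ℂ) by simp, Complex.div_ofReal_re, Complex.log_re]
        rw [this, div_le_iff₀ hNpos]
        have h10 : Real.log ‖1 - X‖ ≤ Real.log 2 := by
          apply Real.log_le_log
          · exact norm_pos_iff.mpr (Complex.slitPlane_ne_zero (slit hXb))
          · have := norm_sub_le (1:ℂ) X
            rw [norm_one] at this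
            linarith
        have h11 : 0 < Real.log 2 := Real.log_pos (by norm_num)
        nlinarith
      calc Real.exp (Complex.log (1 - X) / N).re ≤ Real.exp (Real.log 2) := Real.exp_le_exp.mpr h9
        _ = 2 := Real.exp_log (by norm_num)
    rw [hBG X hXb]
    have h9 : B0 N X * Complex.exp (G X / N) - B0 N X = B0 N X * (Complex.exp (G X / N) - 1) := by ring
    rw [h9, norm_mul]
    calc ‖B0 N X‖ * ‖Complex.exp (G X / N) - 1‖ ≤ 2 * (2 * (3 / 2 * e / N)) := by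
          apply mul_le_mul h8 (h7.trans (by linarith)) (norm_nonneg _) (by norm_num)
      _ = 6 * e / N := by ring
  have hNpos : (0:ℝ) < N := by exact_mod_cast (by omega : 0 < N)
  -- Cauchy's estimate
  have htc : ‖tc B k - tc (B0 N) k‖ ≤ 18 * e / N := by
    rw [← tc_sub one_pos hB (B0_diff N)]
    have hdc : DiffContOnCl ℂ (fun x => B x - B0 N x) (ball 0 r) := by
      apply DifferentiableOn.diffContOnCl
      rw [closure_ball 0 hr0.ne']
      exact (hB.sub (B0_diff N)).mono (closedBall_subset_ball hr1)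
    have h3 := Complex.norm_iteratedDeriv_le_of_forall_mem_sphere_norm_le (c := 0) (R := r)
      (C := 6 * e / N) k hr0 hdc (fun z hz => hdiff z (by
        rw [mem_sphere_zero_iff_norm] at hz; rw [hz]))
    unfold tc
    rw [norm_mul, norm_inv, Complex.norm_natCast]
    have hkf : (0:ℝ) < k.factorial := by exact_mod_cast k.factorial_pos
    rw [inv_mul_le_iff₀ hkf]
    refine h3.trans ?_
    have h4 : 1 / r ^ k ≤ 3 := by
      have h5 : 1 / r ^ k = (1 + 1 / (k:ℝ)) ^ k := by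
        rw [hr, div_pow, one_div_div, ← div_pow]
        congr 1
        field_simp
      rw [h5]
      have h6 : (1 + 1 / (k:ℝ)) ^ k ≤ Real.exp 1 :=
        Pool.Agent.H749R2.Hyp.one_add_div_pow_le (by omega) (by norm_num) le_rfl
      have := Real.exp_one_lt_d9
      linarith
    have h7 : (k.factorial : ℝ) * (6 * e / N) / r ^ k = k.factorial * (6 * e / N) * (1 / r ^ k) := by ring
    rw [h7]
    calc (k.factorial : ℝ) * (6 * e / N) * (1 / r ^ k) ≤ k.factorial * (6 * e / N) * 3 := by gcongr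
      _ = k.factorial * (18 * e / N) := by ring
  obtain ⟨v, hv0, hv1, hvk, hv⟩ := B0_coeff hN1 (k - 1)
  have hk1 : k - 1 + 1 = k := by omega
  have hk1c : ((k - 1 : ℕ) : ℂ) + 1 = k := by rw [← Nat.cast_succ]; congr 1
  have hk1r : ((k - 1 : ℕ) : ℝ) = k - 1 := by rw [Nat.cast_sub hk]; simp
  rw [hk1, hk1c] at hv
  rw [hk1r] at hvk
  have hkc : (k:ℂ) ≠ 0 := by exact_mod_cast (by omega : k ≠ 0)
  have hB0k : (N:ℂ) * tc (B0 N) k + 1 / k = ((1 - v : ℝ) : ℂ) / k := by
    field_simp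
    push_cast
    linear_combination hv
  have hB0n : ‖(N:ℂ) * tc (B0 N) k + 1 / k‖ ≤ 1 / N := by
    rw [hB0k, norm_div, Complex.norm_real, Real.norm_eq_abs, abs_of_nonneg (by linarith),
      Complex.norm_natCast, div_le_iff₀ (by linarith)]
    have : ((k:ℝ) - 1) / N ≤ 1 / N * k := by
      rw [div_mul_eq_mul_div, one_mul]
      gcongr
      linarith
    linarith
  rw [← hBt k, ← hNc]
  have h3 : (N:ℂ) * tc B k + 1 / k = N * (tc B k - tc (B0 N) k) + (N * tc (B0 N) k + 1 / k) := by ring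
  rw [h3]
  have h4 : ‖(N:ℂ) * (tc B k - tc (B0 N) k)‖ ≤ 18 * e := by
    rw [norm_mul, Complex.norm_natCast]
    calc (N:ℝ) * ‖tc B k - tc (B0 N) k‖ ≤ N * (18 * e / N) := by gcongr
      _ = 18 * e := by field_simp
  refine (norm_add_le _ _).trans ?_
  refine (add_le_add h4 hB0n).trans ?_
  rw [hNr]
  have hl2 : 0.6931471803 < Real.log 2 := Real.log_two_gt_d9
  have h5 : Real.log 2 ≤ Real.log ((k:ℝ) + 1) := Real.log_le_log (by norm_num) (by linarith)
  have h6 : 1 ≤ (Real.log n + 3) * (((k:ℝ) + 1) * Real.log (k + 1)) := by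
    have h7 : 2 * 0.6931471803 ≤ ((k:ℝ) + 1) * Real.log (k + 1) := by
      apply mul_le_mul (by linarith) (by linarith) (by norm_num) (by linarith)
    nlinarith
  have h8 : 18 * e + 1 / ((n:ℝ) - 1) =
      (1152 * ((Real.log n + 3) * (((k:ℝ) + 1) * Real.log (k + 1))) + 1) / ((n:ℝ) - 1) := by
    rw [he]; ring
  rw [h8]
  gcongr
  linarith

/-- The limit of `m b_m` along `m = k (n - 1) - 1`. -/
theorem limit_coeff {β : ℕ → ℂ → ℂ} (hβ : ∀ n, 2 ≤ n → IsBeta n (β n)) {k : ℕ} (hk : 1 ≤ k) :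
    Tendsto (fun n : ℕ => ((n:ℂ) - 1) * tc (β n) (k * (n - 1))) atTop (𝓝 (-(1 / (k:ℂ)))) := by
  have hkr : (1:ℝ) ≤ k := by exact_mod_cast hk
  set D : ℝ := ((k:ℝ) + 1) * Real.log (k + 1) with hD
  have hD0 : 0 ≤ D := mul_nonneg (by linarith) (Real.log_nonneg (by linarith))
  have hlim : Tendsto (fun n : ℕ => (Real.log n + 3) / ((n:ℝ) - 1)) atTop (𝓝 0) := by
    have h1 : Tendsto (fun x : ℝ => Real.log x / x) atTop (𝓝 0) :=
      (Real.isLittleO_log_id_atTop).tendsto_div_nhds_zero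
    have h2 : Tendsto (fun n : ℕ => Real.log n / n) atTop (𝓝 0) :=
      h1.comp tendsto_natCast_atTop_atTop
    have h3 : Tendsto (fun n : ℕ => (3:ℝ) / n) atTop (𝓝 0) := tendsto_const_div_atTop_nhds_zero_nat 3
    have h4 : Tendsto (fun n : ℕ => 2 * (Real.log n / n + 3 / n)) atTop (𝓝 (2 * (0 + 0))) :=
      (h2.add h3).const_mul 2
    rw [add_zero, mul_zero] at h4
    refine squeeze_zero' ?_ ?_ h4
    · filter_upwards [eventually_ge_atTop 2] with n hn
      have hnr : (2:ℝ) ≤ n := by exact_mod_cast hn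
      have : 0 ≤ Real.log n := Real.log_nonneg (by linarith)
      apply div_nonneg <;> linarith
    · filter_upwards [eventually_ge_atTop 2] with n hn
      have hnr : (2:ℝ) ≤ n := by exact_mod_cast hn
      have : 0 ≤ Real.log n := Real.log_nonneg (by linarith)
      have h5 : 2 * (Real.log n / n + 3 / n) = (Real.log n + 3) / (n / 2) := by
        field_simp
      rw [h5]
      apply div_le_div_of_nonneg_left (by linarith) (by linarith) (by linarith)
  have hlim2 : Tendsto (fun n : ℕ => 1200 * D * ((Real.log n + 3) / ((n:ℝ) - 1))) atTop (𝓝 0) := by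
    simpa using hlim.const_mul (1200 * D)
  have hlim3 : Tendsto (fun n : ℕ => 128 * D * ((Real.log n + 3) / ((n:ℝ) - 1))) atTop (𝓝 0) := by
    simpa using hlim.const_mul (128 * D)
  rw [tendsto_iff_norm_sub_tendsto_zero]
  refine squeeze_zero' (Eventually.of_forall fun _ => norm_nonneg _) ?_ hlim2
  filter_upwards [eventually_ge_atTop 32, hlim3.eventually (gt_mem_nhds one_pos)] with n hn hn3
  have hnr : (32:ℝ) ≤ n := by exact_mod_cast hn
  have hn1 : (0:ℝ) < n - 1 := by linarith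
  have h1 := coeff_asym hn (hβ n (by omega)) hk (by
    rw [← hD]
    have : 128 * (Real.log n + 3) * D = 128 * D * ((Real.log n + 3) / ((n:ℝ) - 1)) * ((n:ℝ) - 1) := by
      field_simp
    rw [this]
    nlinarith)
  rw [sub_neg_eq_add]
  refine h1.trans (le_of_eq ?_)
  rw [← hD]
  ring

end Pool.Agent.X201.MB

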