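import Mathlib
import Pool.Prelude.Def_F_c31e40fa
import Pool.Agent.H712R2.MultiCoarse
import Pool.Agent.TH363.CD.Uniq

set_option autoImplicit false

open Complex Set Topology Filter Bornology N62a1eb23

namespace Pool.Agent.X201.MB

open Pool.Agent.H712R2

theorem log_le_aux {n : ℕ} (hn : 2 ≤ n) : Real.log n ≤ ((n : ℝ) - 1) / Real.sqrt n := by
  have hnr : (2:ℝ) ≤ n := by exact_mod_cast hn
  have hs : 0 < Real.sqrt n := Real.sqrt_pos.mpr (by linarith)
  have h1 : 0 ≤ Real.log (Real.sqrt n) := Real.log_nonneg (by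
    rw [Real.one_le_sqrt]; linarith)
  have h2 : Real.log (Real.sqrt n) ≤ Real.sinh (Real.log (Real.sqrt n)) := Real.self_le_sinh_iff.mpr h1
  rw [Real.sinh_log hs, Real.log_sqrt (by linarith)] at h2
  have h3 : ((n : ℝ) - 1) / Real.sqrt n = Real.sqrt n - (Real.sqrt n)⁻¹ := by
    field_simp
    rw [Real.sq_sqrt (by linarith)]
  rw [h3]
  linarith

theorem L_le {n : ℕ} (hn : 2 ≤ n) : Real.log n / ((n:ℝ) - 1) ≤ 1 / Real.sqrt n := by
  have hnr : (2:ℝ) ≤ n := by exact_mod_cast hn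
  have h0 : 0 < (n:ℝ) - 1 := by linarith
  have h1 := log_le_aux hn
  rw [div_le_iff₀ h0]
  calc Real.log n ≤ ((n : ℝ) - 1) / Real.sqrt n := h1
    _ = 1 / Real.sqrt n * ((n:ℝ) - 1) := by ring

theorem rr_le {n : ℕ} (hn : 2 ≤ n) : rr n ≤ 1 - Real.log n / ((n:ℝ) - 1) := by
  have hnr : (2:ℝ) ≤ n := by exact_mod_cast hn
  have h0 : 0 < (n:ℝ) - 1 := by linarith
  set L := Real.log n / ((n:ℝ) - 1) with hL
  have hL0 : 0 ≤ L := div_nonneg (Real.log_nonneg (by linarith)) h0.le
  have hL1 : L ≤ 1 / Real.sqrt n := L_le hn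
  have hL2 : L ^ 2 ≤ 1 / n := by
    calc L ^ 2 ≤ (1 / Real.sqrt n) ^ 2 := pow_le_pow_left₀ hL0 hL1 2
      _ = 1 / n := by rw [div_pow, one_pow, Real.sq_sqrt (by linarith)]
  have hL3 : L ≤ 1 := by
    have : 1 / (n:ℝ) ≤ 1 := by rw [div_le_one (by linarith)]; linarith
    nlinarith
  have h1 := Real.quadratic_le_exp_of_nonneg hL0
  rw [rr_eq hn]
  have h2 : sr n = Real.exp (-L) := rfl
  rw [h2, Real.exp_neg]
  have hn1 : 0 ≤ 1 - 1 / (n:ℝ) := by
    have : 1 / (n:ℝ) ≤ 1 := by rw [div_le_one (by linarith)]; linarith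
    linarith
  have h3 : (Real.exp L)⁻¹ ≤ (1 + L + L ^ 2 / 2)⁻¹ := by
    apply inv_anti₀ (by positivity) h1
  have h4 : (Real.exp L)⁻¹ * (1 - 1 / n) ≤ (1 + L + L ^ 2 / 2)⁻¹ * (1 - 1 / n) :=
    mul_le_mul_of_nonneg_right h3 hn1
  refine h4.trans ?_
  rw [inv_mul_le_iff₀ (by positivity)]
  nlinarith [mul_nonneg hL0 (sq_nonneg L), sq_nonneg L]

/-- A real number in the Multibrot set is at most `rr n`. -/
theorem real_le {n : ℕ} (hn : 2 ≤ n) {z : ℂ} (hz : z ∈ multibrotSet n) (him : z.im = 0) :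
    z.re ≤ rr n := by
  by_contra hcon
  push Not at hcon
  apply real_escape hn hcon
  have : ((z.re : ℝ) : ℂ) = z := by
    apply Complex.ext <;> simp [him]
  rw [this]; exact hz

/-- A connected subset of the Multibrot set which contains a point and its conjugate contains a
real point. -/
theorem exists_real {S : Set ℂ} (hS : IsPreconnected S) {x y : ℂ} (hx : x ∈ S) (hy : y ∈ S)
    (h : y.im = -x.im) : ∃ z ∈ S, z.im = 0 := by
  rcases le_total 0 x.im with h0 | h0
  · obtain ⟨z, hz, hz0⟩ := hS.intermediate_value hy hx (f := Complex.im) Complex.continuous_im.continuousOn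
      (show (0:ℝ) ∈ Icc y.im x.im from ⟨by linarith, h0⟩)
    exact ⟨z, hz, hz0⟩
  · obtain ⟨z, hz, hz0⟩ := hS.intermediate_value hx hy (f := Complex.im) Complex.continuous_im.continuousOn
      (show (0:ℝ) ∈ Icc x.im y.im from ⟨h0, by linarith⟩)
    exact ⟨z, hz, hz0⟩

theorem dist_le_diam {n : ℕ} (hn : 2 ≤ n) {S : Set ℂ} (hS : S ⊆ multibrotSet n) {x z : ℂ}
    (hx : x ∈ S) (hz : z ∈ S) : dist x z ≤ Metric.diam S :=
  Metric.dist_le_diam_of_mem ((isCompact_multibrot hn).isBounded.subset hS) hx hz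

/-- parameters with `c ^ n + c = 0` -/
theorem mem_of_center {n : ℕ} (hn : 2 ≤ n) {c : ℂ} (h1 : ‖c‖ = 1) (h : c ^ n + c = 0) :
    c ∈ multibrotSet n := by
  rw [mem_multibrot_iff hn]
  have key : ∀ k, P n k c = 0 ∨ P n k c = c := by
    intro k
    induction k with
    | zero => left; exact P_zero n c
    | succ k ih =>
      rw [P_succ]
      rcases ih with h2 | h2
      · right; rw [h2, zero_pow (by omega), zero_add]
      · left; rw [h2, h]
  intro k
  rcases key k with h2 | h2 <;> rw [h2]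
  · simp
  · rw [h1]; norm_num

theorem part1 {n : ℕ} (hn : 3 ≤ n) : ∃ x ∈ multibrotSet n, ∃ y ∈ multibrotSet n,
    dist x y ≤ 2 * Real.pi / ((n:ℝ) - 1) ∧ ∀ S ⊆ multibrotSet n, IsConnected S → x ∈ S → y ∈ S →
      Real.log n / ((n:ℝ) - 1) ≤ Metric.diam S := by
  have hnr : (3:ℝ) ≤ n := by exact_mod_cast hn
  have hn2 : 2 ≤ n := by omega
  have h0 : 0 < (n:ℝ) - 1 := by linarith
  have hpi := Real.pi_pos
  set α : ℝ := Real.pi / ((n:ℝ) - 1) with hα
  have hα0 : 0 < α := by positivity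
  have hα2 : α ≤ Real.pi / 2 := by
    rw [hα]
    apply div_le_div_of_nonneg_left hpi.le (by norm_num) (by linarith)
  set x : ℂ := Complex.exp (α * I) with hx
  set y : ℂ := Complex.exp (-(α * I)) with hy
  have hxn : ‖x‖ = 1 := by rw [hx, Complex.norm_exp_ofReal_mul_I]
  have hyn : ‖y‖ = 1 := by
    have : y = Complex.exp (((-α : ℝ) : ℂ) * I) := by rw [hy]; congr 1; push_cast; ring
    rw [this, Complex.norm_exp_ofReal_mul_I]
  have hxre : x.re = Real.cos α := by rw [hx, Complex.exp_ofReal_mul_I_re]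
  have hxim : x.im = Real.sin α := by rw [hx, Complex.exp_ofReal_mul_I_im]
  have hy' : y = Complex.exp (((-α : ℝ) : ℂ) * I) := by rw [hy]; congr 1; push_cast; ring
  have hyre : y.re = Real.cos α := by rw [hy', Complex.exp_ofReal_mul_I_re, Real.cos_neg]
  have hyim : y.im = -Real.sin α := by rw [hy', Complex.exp_ofReal_mul_I_im, Real.sin_neg]
  have hN : ((n:ℂ)) - 1 ≠ 0 := by
    have : ((n:ℝ)) - 1 ≠ 0 := h0.ne'
    exact_mod_cast this
  have hxc : x ^ n + x = 0 := by
    have e1 : x ^ n = Complex.exp (Real.pi * I) * x := by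
      rw [hx, ← Complex.exp_nat_mul, ← Complex.exp_add]
      congr 1
      rw [hα]; push_cast
      field_simp
      ring
    rw [e1, Complex.exp_pi_mul_I]; ring
  have hyc : y ^ n + y = 0 := by
    have e1 : y ^ n = Complex.exp (-(Real.pi * I)) * y := by
      rw [hy, ← Complex.exp_nat_mul, ← Complex.exp_add]
      congr 1
      rw [hα]; push_cast
      field_simp
      ring
    rw [e1, Complex.exp_neg, Complex.exp_pi_mul_I]; norm_num
  have hxM := mem_of_center hn2 hxn hxc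
  have hyM := mem_of_center hn2 hyn hyc
  refine ⟨x, hxM, y, hyM, ?_, ?_⟩
  · have e1 : x - y = ((2 * Real.sin α : ℝ) : ℂ) * I := by
      apply Complex.ext
      · simp [hxre, hyre]
      · rw [Complex.sub_im, hxim, hyim, Complex.im_ofReal_mul, Complex.I_im]; ring
    rw [dist_eq_norm, e1, norm_mul, Complex.norm_I, mul_one, Complex.norm_real, Real.norm_eq_abs,
      abs_of_nonneg (mul_nonneg (by norm_num) (Real.sin_nonneg_of_nonneg_of_le_pi hα0.le (by linarith)))]
    have := (Real.sin_lt hα0).le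
    calc 2 * Real.sin α ≤ 2 * α := by linarith
      _ = 2 * Real.pi / ((n:ℝ) - 1) := by rw [hα]; ring
  · intro S hS hSc hxS hyS
    obtain ⟨z, hzS, hz0⟩ := exists_real hSc.isPreconnected hxS hyS (by rw [hxim, hyim])
    have hzr := real_le hn2 (hS hzS) hz0
    have hd := dist_le_diam hn2 hS hxS hzS
    have hr := rr_le hn2
    have hrp := rr_pos hn2
    refine le_trans ?_ hd
    have hgoal : 1 - rr n ≤ dist x z := by
      rw [dist_eq_norm]
      rcases le_total 0 z.re with h1 | h1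
      · have hzn : ‖z‖ ≤ rr n := by
          have : z = ((z.re : ℝ) : ℂ) := by apply Complex.ext <;> simp [hz0]
          rw [this, Complex.norm_real, Real.norm_eq_abs, abs_of_nonneg h1]
          exact hzr
        have := norm_sub_norm_le x z
        linarith
      · have h2 : 1 ≤ ‖x - z‖ := by
          have h3 : 1 ≤ ‖x - z‖ ^ 2 := by
            rw [← Complex.normSq_eq_norm_sq, Complex.normSq_apply]
            simp only [Complex.sub_re, Complex.sub_im, hxre, hxim, hz0]
            have hc : 0 ≤ Real.cos α := Real.cos_nonneg_of_neg_pi_div_two_le_of_le (by linarith) hα2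
            nlinarith [Real.sin_sq_add_cos_sq α, mul_nonneg hc (neg_nonneg.mpr h1)]
          nlinarith [norm_nonneg (x - z)]
        linarith
    linarith

/-- Parameters with an indifferent fixed point lie in the Multibrot set. -/
theorem mem_cusp {n : ℕ} (hn : 2 ≤ n) {z : ℂ} (hz : ‖z‖ = sr n) : z - z ^ n ∈ multibrotSet n := by
  have hnr : (2:ℝ) ≤ n := by exact_mod_cast hn
  have hcl : IsClosed (multibrotSet n) := (isCompact_multibrot hn).isClosed
  have htend : Tendsto (fun r : ℝ => ((r : ℂ) * z) - ((r : ℂ) * z) ^ n) (𝓝[<] (1:ℝ)) (𝓝 (z - z ^ n)) := by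
    have hc : Continuous (fun r : ℝ => ((r : ℂ) * z) - ((r : ℂ) * z) ^ n) := by fun_prop
    have h1 := hc.tendsto 1
    simp only [Complex.ofReal_one, one_mul] at h1
    exact h1.mono_left nhdsWithin_le_nhds
  refine hcl.mem_of_tendsto htend ?_
  have hev : ∀ᶠ r : ℝ in 𝓝[<] (1:ℝ), 0 < r := by
    apply mem_nhdsWithin_of_mem_nhds
    exact lt_mem_nhds one_pos
  filter_upwards [hev, self_mem_nhdsWithin] with r hr0 hr1
  have hr1' : r < 1 := hr1
  apply Pool.Agent.TH363.CD.mem_multibrot hn (z := (r:ℂ) * z) (m := 1)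
  refine ⟨one_pos, ?_, ?_, ?_⟩
  · show Function.IsPeriodicPt _ 1 _
    rw [Function.IsPeriodicPt, Function.iterate_one, Function.IsFixedPt]
    show ((r:ℂ) * z) ^ n + ((r : ℂ) * z - ((r : ℂ) * z) ^ n) = (r:ℂ) * z
    ring
  · rw [Function.iterate_one]
    have : Differentiable ℂ (Pool.Agent.W747.MB.f n ((r : ℂ) * z - ((r : ℂ) * z) ^ n)) := by
      show Differentiable ℂ (fun w : ℂ => w ^ n + ((r : ℂ) * z - ((r : ℂ) * z) ^ n))
      fun_prop
    exact this _
  · rw [Function.iterate_one]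
    have e1 : deriv (Pool.Agent.W747.MB.f n ((r : ℂ) * z - ((r : ℂ) * z) ^ n)) ((r:ℂ) * z)
        = n * ((r:ℂ) * z) ^ (n - 1) := by
      have : HasDerivAt (fun w : ℂ => w ^ n + ((r : ℂ) * z - ((r : ℂ) * z) ^ n))
          (n * ((r:ℂ) * z) ^ (n - 1)) ((r:ℂ) * z) := by
        simpa using (hasDerivAt_pow n ((r:ℂ) * z)).add_const ((r : ℂ) * z - ((r : ℂ) * z) ^ n)
      exact this.deriv
    rw [e1, norm_mul, norm_pow, norm_mul, Complex.norm_natCast, Complex.norm_real, Real.norm_eq_abs,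
      abs_of_pos hr0, hz, mul_pow, sr_pow hn]
    have h2 : r ^ (n - 1) < 1 := pow_lt_one₀ hr0.le hr1' (by omega)
    have h3 : (n:ℝ) ≠ 0 := by linarith
    calc (n:ℝ) * (r ^ (n - 1) * (1 / n)) = r ^ (n - 1) := by field_simp
      _ < 1 := h2

theorem part2 {n : ℕ} (hn : 2 ≤ n) {t : ℝ} (ht : 0 < t) (htn : t ≤ 1 / n) :
    ∃ x ∈ multibrotSet n, ∃ y ∈ multibrotSet n, dist x y ≤ t ∧
      ∀ S ⊆ multibrotSet n, IsConnected S → x ∈ S → y ∈ S →
        (t ^ 2 / n) ^ (1 / 3 : ℝ) / 24 ≤ Metric.diam S := by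
  have hnr : (2:ℝ) ≤ n := by exact_mod_cast hn
  have hn0 : (0:ℝ) < n := by linarith
  set θ : ℝ := (t / n ^ 2) ^ (1 / 3 : ℝ) with hθ
  have hθ0 : 0 < θ := Real.rpow_pos_of_pos (by positivity) _
  have hθ3 : θ ^ 3 = t / n ^ 2 := by
    rw [hθ, ← Real.rpow_natCast, ← Real.rpow_mul (by positivity)]
    norm_num
  have hθn : n * θ ≤ 1 := by
    have h1 : (n * θ) ^ 3 ≤ 1 ^ 3 := by
      rw [mul_pow, hθ3, one_pow]
      have : (n:ℝ) ^ 3 * (t / n ^ 2) = n * t := by field_simp
      rw [this]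
      calc (n:ℝ) * t ≤ n * (1 / n) := by gcongr
        _ = 1 := by field_simp
    exact (pow_le_pow_iff_left₀ (by positivity) (by norm_num) (by norm_num)).mp h1
  have hθ2 : (t ^ 2 / n) ^ (1 / 3 : ℝ) = n * θ ^ 2 := by
    have h1 : t ^ 2 / n = (n * θ ^ 2) ^ 3 := by
      have : (n * θ ^ 2) ^ 3 = n ^ 3 * (θ ^ 3) ^ 2 := by ring
      rw [this, hθ3]
      field_simp
    rw [h1, ← Real.rpow_natCast, ← Real.rpow_mul (by positivity)]
    norm_num
  have hθ1 : θ ≤ 1 := by nlinarith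
  set s := sr n with hs
  have hs0 : 0 < s := sr_pos n
  have hs1 : s < 1 := sr_lt_one hn
  have hs2 : 1 / 4 ≤ s := by
    have h1 := sr_ge n
    have h2 := L_le hn
    have h3 : 1 / Real.sqrt n ≤ 3 / 4 := by
      have : (4:ℝ) / 3 ≤ Real.sqrt n := by
        apply Real.le_sqrt_of_sq_le
        norm_num
        linarith
      rw [div_le_div_iff₀ (by linarith) (by norm_num)]
      linarith
    linarith
  set z : ℂ := (s : ℂ) * Complex.exp (θ * I) with hz
  have hznorm : ‖z‖ = s := by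
    rw [hz, norm_mul, Complex.norm_exp_ofReal_mul_I, mul_one, Complex.norm_real, Real.norm_eq_abs,
      abs_of_pos hs0]
  set z' : ℂ := (s : ℂ) * Complex.exp (((-θ : ℝ) : ℂ) * I) with hz'
  have hz'norm : ‖z'‖ = s := by
    rw [hz', norm_mul, Complex.norm_exp_ofReal_mul_I, mul_one, Complex.norm_real, Real.norm_eq_abs,
      abs_of_pos hs0]
  have hpow : ∀ φ : ℝ, ((s : ℂ) * Complex.exp (φ * I)) ^ n = ((s / n : ℝ) : ℂ) * Complex.exp (((n * φ : ℝ) : ℂ) * I) := by
    intro φ
    rw [mul_pow, ← Complex.exp_nat_mul, ← Complex.ofReal_pow, hs, sr_pow' hn]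
    congr 2
    push_cast; ring
  have hre : ∀ φ : ℝ, ((s : ℂ) * Complex.exp (φ * I) - ((s : ℂ) * Complex.exp (φ * I)) ^ n).re
      = s * (Real.cos φ - Real.cos (n * φ) / n) := by
    intro φ
    rw [hpow, Complex.sub_re, Complex.re_ofReal_mul, Complex.re_ofReal_mul,
      Complex.exp_ofReal_mul_I_re, Complex.exp_ofReal_mul_I_re]
    ring
  have him : ∀ φ : ℝ, ((s : ℂ) * Complex.exp (φ * I) - ((s : ℂ) * Complex.exp (φ * I)) ^ n).im
      = s * (Real.sin φ - Real.sin (n * φ) / n) := by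
    intro φ
    rw [hpow, Complex.sub_im, Complex.im_ofReal_mul, Complex.im_ofReal_mul,
      Complex.exp_ofReal_mul_I_im, Complex.exp_ofReal_mul_I_im]
    ring
  set x : ℂ := z - z ^ n with hx
  set y : ℂ := z' - z' ^ n with hy
  have hxre : x.re = s * (Real.cos θ - Real.cos (n * θ) / n) := hre θ
  have hxim : x.im = s * (Real.sin θ - Real.sin (n * θ) / n) := him θ
  have hyre : y.re = s * (Real.cos θ - Real.cos (n * θ) / n) := by
    have := hre (-θ)
    rw [mul_neg, Real.cos_neg, Real.cos_neg] at this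
    exact this
  have hyim : y.im = -x.im := by
    have := him (-θ)
    rw [mul_neg, Real.sin_neg, Real.sin_neg] at this
    rw [hxim]
    refine this.trans ?_
    ring
  have hxM : x ∈ multibrotSet n := mem_cusp hn hznorm
  have hyM : y ∈ multibrotSet n := mem_cusp hn hz'norm
  have hnθ0 : 0 < n * θ := by positivity
  refine ⟨x, hxM, y, hyM, ?_, ?_⟩
  · have e1 : x - y = ((2 * x.im : ℝ) : ℂ) * I := by
      apply Complex.ext
      · simp [hxre, hyre]
      · simp [hyim]; ring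
    rw [dist_eq_norm, e1, norm_mul, Complex.norm_I, mul_one, Complex.norm_real, Real.norm_eq_abs,
      abs_mul, abs_two]
    have h1 : |x.im| ≤ n ^ 2 * θ ^ 3 / 4 := by
      rw [hxim, abs_mul, abs_of_pos hs0]
      have h2 : |Real.sin θ - Real.sin (n * θ) / n| ≤ n ^ 2 * θ ^ 3 / 4 := by
        have a1 := Real.sin_gt_sub_cube hnθ0
        have a2 := Real.sin_lt hnθ0
        have a3 := Real.sin_gt_sub_cube hθ0
        have a4 := Real.sin_lt hθ0
        have a5 : 0 < n ^ 2 * θ ^ 3 := by positivity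
        have a6 : 0 < θ ^ 3 := by positivity
        have b1 : θ - (n ^ 2 * θ ^ 3) / 4 ≤ Real.sin (n * θ) / n := by
          rw [le_div_iff₀ hn0]
          have : (θ - (n ^ 2 * θ ^ 3) / 4) * n = n * θ - (n * θ) ^ 3 / 4 := by ring
          rw [this]
          have : 0 < (n * θ) ^ 3 := by positivity
          linarith
        have b2 : Real.sin (n * θ) / n ≤ θ := by
          rw [div_le_iff₀ hn0]; linarith
        have b3 : θ ^ 3 ≤ n ^ 2 * θ ^ 3 := by
          have : (1:ℝ) ≤ n ^ 2 := by nlinarith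
          nlinarith [pow_pos hθ0 3]
        rw [abs_le]
        constructor <;> linarith
      calc s * |Real.sin θ - Real.sin (n * θ) / n| ≤ 1 * (n ^ 2 * θ ^ 3 / 4) := by
            apply mul_le_mul hs1.le h2 (abs_nonneg _) (by norm_num)
        _ = _ := one_mul _
    have h3 : n ^ 2 * θ ^ 3 = t := by rw [hθ3]; field_simp
    rw [h3] at h1
    linarith
  · intro S hS hSc hxS hyS
    obtain ⟨w, hwS, hw0⟩ := exists_real hSc.isPreconnected hxS hyS hyim
    have hwr := real_le hn (hS hwS) hw0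
    have hd := dist_le_diam hn hS hxS hwS
    refine le_trans ?_ hd
    have h1 : x.re - w.re ≤ dist x w := by
      rw [dist_eq_norm]
      have := Complex.abs_re_le_norm (x - w)
      rw [Complex.sub_re] at this
      exact (le_abs_self _).trans this
    refine le_trans ?_ h1
    have h2 : s * (n * θ ^ 2 / 6) ≤ x.re - rr n := by
      rw [hxre, rr_eq hn, ← hs]
      have c1 := Real.one_sub_sq_div_two_le_cos (x := θ)
      have c2 := Real.cos_bound (x := n * θ) (by rw [abs_of_pos hnθ0]; exact hθn)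
      rw [abs_of_pos hnθ0] at c2
      have c3 := (abs_le.mp c2).2
      have c4 : (n * θ) ^ 4 ≤ (n * θ) ^ 2 := pow_le_pow_of_le_one hnθ0.le hθn (by norm_num)
      have c5 : Real.cos (n * θ) ≤ 1 - 43 / 96 * (n * θ) ^ 2 := by linarith
      have c6 : Real.cos (n * θ) / n ≤ 1 / n - 43 / 96 * (n * θ ^ 2) := by
        rw [div_le_iff₀ hn0]
        have : (1 / n - 43 / 96 * (n * θ ^ 2)) * n = 1 - 43 / 96 * (n * θ) ^ 2 := by
          field_simp
        rw [this]; exact c5
      have c7 : θ ^ 2 ≤ n * θ ^ 2 / 2 := by nlinarith [sq_nonneg θ]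
      have c8 : n * θ ^ 2 / 6 ≤ (Real.cos θ - Real.cos (n * θ) / n) - (1 - 1 / n) := by
        have c9 : 0 ≤ n * θ ^ 2 := mul_nonneg hn0.le (sq_nonneg θ)
        linarith
      calc s * (n * θ ^ 2 / 6) ≤ s * ((Real.cos θ - Real.cos (n * θ) / n) - (1 - 1 / n)) := by gcongr
        _ = _ := by ring
    rw [hθ2]
    have h3 : 1 / 4 * (n * θ ^ 2 / 6) ≤ s * (n * θ ^ 2 / 6) := by gcongr
    linarith

end Pool.Agent.X201.MB
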