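import Mathlib
import Pool.Prelude.Def_F_c31e40fa
import Pool.Agent.H712R2.MultiCoarse2

set_option autoImplicit false

open Complex Set Topology Filter Bornology N62a1eb23

namespace Pool.Agent.X201.MB

open Pool.Agent.H712R2

/-- radial truncation -/
noncomputable def tr (r : ℝ) (x : ℂ) : ℂ := if ‖x‖ ≤ r then x else ((r / ‖x‖ : ℝ) : ℂ) * x

theorem tr_eq {r : ℝ} (hr : 0 < r) (x : ℂ) : ∃ (u : ℂ) (a : ℝ), ‖u‖ = 1 ∧ x = ((‖x‖ : ℝ) : ℂ) * u ∧
    tr r x = ((a : ℝ) : ℂ) * u ∧ 0 ≤ a ∧ a ≤ r ∧ ((a = ‖x‖) ∨ (a = r ∧ r ≤ ‖x‖)) := by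
  by_cases hx : x = 0
  · refine ⟨1, 0, by simp, by simp [hx], ?_, le_rfl, hr.le, Or.inl (by simp [hx])⟩
    simp [tr, hx, hr.le]
  · have hn : 0 < ‖x‖ := norm_pos_iff.mpr hx
    have hnc : ((‖x‖ : ℝ) : ℂ) ≠ 0 := by exact_mod_cast hn.ne'
    have hu : ‖((‖x‖ : ℝ) : ℂ)⁻¹ * x‖ = 1 := by
      rw [norm_mul, norm_inv, Complex.norm_real, Real.norm_eq_abs, abs_of_pos hn, inv_mul_cancel₀ hn.ne']
    by_cases h : ‖x‖ ≤ r
    · refine ⟨((‖x‖ : ℝ) : ℂ)⁻¹ * x, ‖x‖, hu, ?_, ?_, hn.le, h, Or.inl rfl⟩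
      · rw [← mul_assoc, mul_inv_cancel₀ hnc, one_mul]
      · rw [tr, if_pos h, ← mul_assoc, mul_inv_cancel₀ hnc, one_mul]
    · refine ⟨((‖x‖ : ℝ) : ℂ)⁻¹ * x, r, hu, ?_, ?_, hr.le, le_rfl, Or.inr ⟨rfl, (not_le.mp h).le⟩⟩
      · rw [← mul_assoc, mul_inv_cancel₀ hnc, one_mul]
      · rw [tr, if_neg h]
        push_cast
        field_simp

theorem norm_sq_comb {u v : ℂ} (hu : ‖u‖ = 1) (hv : ‖v‖ = 1) (a b : ℝ) :
    ‖(a : ℂ) * u - (b : ℂ) * v‖ ^ 2 = a ^ 2 + b ^ 2 - 2 * (a * b) * (u.re * v.re + u.im * v.im) := by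
  have hu2 : u.re ^ 2 + u.im ^ 2 = 1 := by
    have := Complex.normSq_eq_norm_sq u
    rw [hu, Complex.normSq_apply] at this
    nlinarith
  have hv2 : v.re ^ 2 + v.im ^ 2 = 1 := by
    have := Complex.normSq_eq_norm_sq v
    rw [hv, Complex.normSq_apply] at this
    nlinarith
  rw [← Complex.normSq_eq_norm_sq, Complex.normSq_apply]
  simp only [Complex.sub_re, Complex.sub_im, Complex.re_ofReal_mul, Complex.im_ofReal_mul]
  linear_combination a ^ 2 * hu2 + b ^ 2 * hv2

theorem tr_lip {r : ℝ} (hr : 0 < r) (x y : ℂ) : dist (tr r x) (tr r y) ≤ dist x y := by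
  obtain ⟨u, a, hu, hx, hxa, ha0, har, ha⟩ := tr_eq hr x
  obtain ⟨v, b, hv, hy, hyb, hb0, hbr, hb⟩ := tr_eq hr y
  have hc : u.re * v.re + u.im * v.im ≤ 1 := by
    have hu2 : u.re ^ 2 + u.im ^ 2 = 1 := by
      have := Complex.normSq_eq_norm_sq u
      rw [hu, Complex.normSq_apply] at this
      nlinarith
    have hv2 : v.re ^ 2 + v.im ^ 2 = 1 := by
      have := Complex.normSq_eq_norm_sq v
      rw [hv, Complex.normSq_apply] at this
      nlinarith
    nlinarith [sq_nonneg (u.re - v.re), sq_nonneg (u.im - v.im)]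
  set c := u.re * v.re + u.im * v.im with hcdef
  have h1 : dist (tr r x) (tr r y) ^ 2 = a ^ 2 + b ^ 2 - 2 * (a * b) * c := by
    rw [dist_eq_norm, hxa, hyb, norm_sq_comb hu hv]
  have h2 : dist x y ^ 2 = ‖x‖ ^ 2 + ‖y‖ ^ 2 - 2 * (‖x‖ * ‖y‖) * c := by
    rw [dist_eq_norm]
    conv_lhs => rw [hx, hy]
    rw [norm_sq_comb hu hv]
  have hxn := norm_nonneg x
  have hyn := norm_nonneg y
  have h3 : dist (tr r x) (tr r y) ^ 2 ≤ dist x y ^ 2 := by
    rw [h1, h2]
    rcases ha with ha | ⟨ha, hra⟩ <;> rcases hb with hb | ⟨hb, hrb⟩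
    · rw [ha, hb]
    · rw [← ha, hb]
      have e : a ^ 2 + ‖y‖ ^ 2 - 2 * (a * ‖y‖) * c - (a ^ 2 + r ^ 2 - 2 * (a * r) * c)
        = (‖y‖ - r) * (‖y‖ + r - 2 * a * c) := by ring
      have e2 : 0 ≤ ‖y‖ + r - 2 * a * c := by nlinarith
      nlinarith [mul_nonneg (sub_nonneg.mpr hrb) e2]
    · rw [← hb, ha]
      have e : ‖x‖ ^ 2 + b ^ 2 - 2 * (‖x‖ * b) * c - (r ^ 2 + b ^ 2 - 2 * (r * b) * c)
        = (‖x‖ - r) * (‖x‖ + r - 2 * b * c) := by ring
      have e2 : 0 ≤ ‖x‖ + r - 2 * b * c := by nlinarith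
      nlinarith [mul_nonneg (sub_nonneg.mpr hra) e2]
    · rw [ha, hb]
      have e : ‖x‖ ^ 2 + ‖y‖ ^ 2 - 2 * (‖x‖ * ‖y‖) * c - (r ^ 2 + r ^ 2 - 2 * (r * r) * c)
        = (‖x‖ - ‖y‖) ^ 2 + 2 * (‖x‖ * ‖y‖ - r * r) * (1 - c) := by ring
      have e2 : 0 ≤ ‖x‖ * ‖y‖ - r * r := by nlinarith
      nlinarith [sq_nonneg (‖x‖ - ‖y‖), mul_nonneg e2 (sub_nonneg.mpr hc)]
  exact le_of_sq_le_sq h3 dist_nonneg

/-- the radial size of the pieces -/
noncomputable def kp (d : ℕ) : ℝ := (Real.log d + 9) / ((d:ℝ) - 1)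

theorem kp_bound {d : ℕ} (hd : 2 ≤ d) :
    (1 + 1 / ((d:ℝ) - 1)) - rr d + 2 * Real.pi / ((d:ℝ) - 1) ≤ kp d := by
  have hdr : (2:ℝ) ≤ d := by exact_mod_cast hd
  have h0 : 0 < (d:ℝ) - 1 := by linarith
  have hlog : 0 < Real.log d := Real.log_pos (by linarith)
  have h1 : rr d = sr d * (1 - 1 / d) := rr_eq hd
  have h2 := sr_ge d
  have h3 : 1 / (d:ℝ) ≤ 1 / ((d:ℝ) - 1) := one_div_le_one_div_of_le h0 (by linarith)
  have h4 : 0 < 1 / (d:ℝ) := by positivity
  have h5 : 0 ≤ 1 - 1 / (d:ℝ) := by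
    have : 1 / (d:ℝ) ≤ 1 / 2 := one_div_le_one_div_of_le (by norm_num) hdr
    linarith
  have h6 : (1 - Real.log d / (d - 1)) * (1 - 1 / d) ≤ rr d := by
    rw [h1]; exact mul_le_mul_of_nonneg_right h2 h5
  have h7 : 1 - Real.log d / (d - 1) - 1 / d ≤ (1 - Real.log d / (d - 1)) * (1 - 1 / d) := by
    have : 0 ≤ (Real.log d / ((d:ℝ) - 1)) * (1 / d) := by positivity
    nlinarith
  have hpi : Real.pi < 3.15 := Real.pi_lt_d2
  have h8 : 2 * Real.pi / ((d:ℝ) - 1) ≤ 6.3 / ((d:ℝ) - 1) := by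
    apply div_le_div_of_nonneg_right _ h0.le
    linarith
  unfold kp
  have h9 : (Real.log d + 9) / ((d:ℝ) - 1) = Real.log d / (d - 1) + 1 / ((d:ℝ) - 1) +
      1 / ((d:ℝ) - 1) + 6.3 / ((d:ℝ) - 1) + 0.7 / ((d:ℝ) - 1) := by
    field_simp; ring
  have h10 : 0 < 0.7 / ((d:ℝ) - 1) := by positivity
  rw [h9]
  linarith

/-- every point of the Multibrot set lies in a small connected piece that contains the radial
projection to the inner disc -/
theorem exists_piece' {d : ℕ} (hd : 2 ≤ d) {x : ℂ} (hx : x ∈ multibrotSet d) :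
    ∃ V : Set ℂ, IsPreconnected V ∧ V ⊆ multibrotSet d ∧ x ∈ V ∧ tr (rr d) x ∈ V ∧
      ∀ a ∈ V, dist a (tr (rr d) x) ≤ kp d := by
  have hdr : (2:ℝ) ≤ d := by exact_mod_cast hd
  have h0 : 0 < (d:ℝ) - 1 := by linarith
  have hkap : 0 ≤ kp d := by
    unfold kp
    have hlog : 0 < Real.log d := Real.log_pos (by linarith)
    positivity
  by_cases hxr : ‖x‖ ≤ rr d
  · have e : tr (rr d) x = x := by rw [tr, if_pos hxr]
    refine ⟨{x}, isPreconnected_singleton, by simpa using hx, rfl, by rw [e]; rfl, ?_⟩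
    rintro a rfl
    rw [e]
    simpa using hkap
  · push Not at hxr
    have hrr := rr_pos hd
    have hxpos : 0 < ‖x‖ := lt_trans hrr hxr
    have hx0 : x ≠ 0 := norm_pos_iff.mp hxpos
    set z := Complex.log x with hz
    have hexpz : Complex.exp z = x := Complex.exp_log hx0
    have hzre : z.re = Real.log ‖x‖ := Complex.log_re x
    have htr : tr (rr d) x = Complex.exp ⟨Real.log (rr d), z.im⟩ := by
      rw [tr, if_neg (not_le.mpr hxr)]
      have e1 : Complex.exp ⟨Real.log (rr d), z.im⟩ = Complex.exp (((Real.log (rr d) - z.re : ℝ) : ℂ)) * Complex.exp z := by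
        rw [← Complex.exp_add]
        congr 1
        apply Complex.ext <;> simp
      rw [e1, hexpz, ← Complex.ofReal_exp, Real.exp_sub, Real.exp_log hrr, hzre, Real.exp_log hxpos]
    set j : ℤ := ⌊z.im * ((d:ℝ) - 1) / (2 * Real.pi)⌋ with hj
    have hpi := Real.pi_pos
    have hj1 : th d j ≤ z.im := by
      have := Int.floor_le (z.im * ((d:ℝ) - 1) / (2 * Real.pi))
      rw [← hj, le_div_iff₀ (by positivity)] at this
      unfold th
      rw [div_le_iff₀ h0]
      linarith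
    have hj2 : z.im ≤ th d (j + 1) := by
      have := (Int.lt_floor_add_one (z.im * ((d:ℝ) - 1) / (2 * Real.pi))).le
      rw [← hj, div_le_iff₀ (by positivity)] at this
      unfold th
      rw [le_div_iff₀ h0]
      push_cast
      linarith
    have hrr2 : Real.log (rr d) ≤ Real.log 2 := by
      apply Real.log_le_log hrr
      have h1 : rr d ≤ sr d := by
        unfold rr
        have := pow_nonneg (sr_pos d).le d
        linarith
      linarith [sr_lt_one hd]
    refine ⟨multibrotSet d ∩ Complex.exp '' (KK d j),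
      conn_piece hd j, inter_subset_left, ⟨hx, z, ⟨⟨?_, ?_⟩, ⟨hj1, hj2⟩⟩, hexpz⟩, ?_, ?_⟩
    · rw [hzre]; exact Real.log_le_log hrr hxr.le
    · rw [hzre]; exact Real.log_le_log hxpos (norm_le_two hd hx)
    · rw [htr]
      refine ⟨?_, ?_⟩
      · apply disc_subset hd
        rw [norm_exp_eq]
        simp [Real.exp_log hrr]
      · exact ⟨(⟨Real.log (rr d), z.im⟩ : ℂ), ⟨⟨le_rfl, hrr2⟩, ⟨hj1, hj2⟩⟩, rfl⟩
    · rintro _ ⟨haM, a, ha, rfl⟩
      rw [htr]
      refine dist_exp_le.trans ?_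
      have hRa := norm_le_outer hd haM
      rw [norm_exp_eq] at hRa
      have hra : rr d ≤ Real.exp a.re := by
        rw [← Real.exp_log hrr]; exact Real.exp_le_exp.mpr ha.1.1
      simp only
      rw [Real.exp_log hrr]
      have h1 : |Real.exp a.re - rr d| ≤ (1 + 1 / ((d:ℝ) - 1)) - rr d := by
        rw [abs_of_nonneg (by linarith)]; linarith
      have h2 : |a.im - z.im| ≤ 2 * Real.pi / ((d:ℝ) - 1) := by
        rw [← th_sub hd j, abs_le]
        have ha1 : th d j ≤ a.im := ha.2.1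
        have ha2 : a.im ≤ th d (j + 1) := ha.2.2
        constructor <;> linarith
      have h3 : rr d ≤ 1 := by
        have h1 : rr d ≤ sr d := by
          unfold rr
          have := pow_nonneg (sr_pos d).le d
          linarith
        linarith [sr_lt_one hd]
      have h4 : rr d * |a.im - z.im| ≤ 1 * (2 * Real.pi / ((d:ℝ) - 1)) :=
        mul_le_mul h3 h2 (abs_nonneg _) (by norm_num)
      linarith [kp_bound hd]

/-- Coarse local connectivity with the constant `2`. -/
theorem coarse2 {d : ℕ} (hd : 2 ≤ d) {x y : ℂ} (hx : x ∈ multibrotSet d)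
    (hy : y ∈ multibrotSet d) :
    ∃ S : Set ℂ, S ⊆ multibrotSet d ∧ IsCompact S ∧ IsConnected S ∧ x ∈ S ∧ y ∈ S ∧
      Metric.diam S ≤ dist x y + 2 * ((Real.log d + 9) / ((d:ℝ) - 1)) := by
  obtain ⟨V, hVp, hVM, hxV, hx'V, hVd⟩ := exists_piece' hd hx
  obtain ⟨W, hWp, hWM, hyW, hy'W, hWd⟩ := exists_piece' hd hy
  have hrr := rr_pos hd
  set x' := tr (rr d) x with hx'
  set y' := tr (rr d) y with hy'
  have htrle : ∀ w : ℂ, ‖tr (rr d) w‖ ≤ rr d := by
    intro w
    obtain ⟨u, a, hu, -, hwa, ha0, har, -⟩ := tr_eq hrr w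
    rw [hwa, norm_mul, hu, mul_one, Complex.norm_real, Real.norm_eq_abs, abs_of_nonneg ha0]
    exact har
  have hx'r := htrle x
  have hy'r := htrle y
  have hdr : (2:ℝ) ≤ d := by exact_mod_cast hd
  have hkap : 0 ≤ kp d := by
    unfold kp
    have hlog : 0 < Real.log d := Real.log_pos (by linarith)
    have h0 : 0 < (d:ℝ) - 1 := by linarith
    positivity
  set L : Set ℂ := segment ℝ x' y' with hL
  have hLM : L ⊆ multibrotSet d := by
    intro c hc
    apply disc_subset hd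
    have h1 : L ⊆ Metric.closedBall (0:ℂ) (rr d) :=
      (convex_closedBall (0:ℂ) (rr d)).segment_subset (by simpa using hx'r) (by simpa using hy'r)
    simpa using h1 hc
  have hLp : IsPreconnected L := (convex_segment x' y').isPreconnected
  set S0 : Set ℂ := (V ∪ L) ∪ W with hS0
  have hS0M : S0 ⊆ multibrotSet d := union_subset (union_subset hVM hLM) hWM
  have hS0p : IsPreconnected S0 := by
    apply IsPreconnected.union y'
    · exact Or.inr (right_mem_segment ℝ x' y')
    · exact hy'W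
    · exact IsPreconnected.union x' hx'V (left_mem_segment ℝ x' y') hVp hLp
    · exact hWp
  have hdxy : dist x' y' ≤ dist x y := tr_lip hrr x y
  have hdiam : ∀ a ∈ S0, ∀ b ∈ S0, dist a b ≤ dist x y + 2 * kp d := by
    have hLx : ∀ a ∈ L, dist a x' ≤ dist x y ∧ dist a y' ≤ dist x y := by
      intro a ha
      have h1 := dist_add_dist_of_mem_segment ha
      have h2 := dist_nonneg (x := x') (y := a)
      have h3 := dist_nonneg (x := a) (y := y')
      rw [dist_comm a x']
      constructor <;> linarith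
    have hLL : ∀ a ∈ L, ∀ b ∈ L, dist a b ≤ dist x y := by
      intro a ha b hb
      have h1 : Metric.diam L ≤ dist x' y' := by
        rw [hL, segment_eq_image_lineMap]
        apply Metric.diam_le_of_forall_dist_le dist_nonneg
        rintro _ ⟨s, hs, rfl⟩ _ ⟨t, ht, rfl⟩
        rw [dist_lineMap_lineMap]
        have : dist s t ≤ 1 := by
          rw [Real.dist_eq, abs_le]
          constructor <;> linarith [hs.1, hs.2, ht.1, ht.2]
        nlinarith [dist_nonneg (x := x') (y := y')]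
      have h2 : Bornology.IsBounded L := by
        apply (Metric.isBounded_closedBall (x := (0:ℂ)) (r := rr d)).subset
        exact (convex_closedBall (0:ℂ) (rr d)).segment_subset (by simpa using hx'r) (by simpa using hy'r)
      exact (Metric.dist_le_diam_of_mem h2 ha hb).trans (h1.trans hdxy)
    have hVV : ∀ a ∈ V, ∀ b ∈ V, dist a b ≤ dist x y + 2 * kp d := by
      intro a ha b hb
      have h1 := dist_triangle_right a b x'
      have h2 := hVd a ha
      have h3 := hVd b hb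
      have h4 := dist_nonneg (x := x) (y := y)
      linarith
    have hWW : ∀ a ∈ W, ∀ b ∈ W, dist a b ≤ dist x y + 2 * kp d := by
      intro a ha b hb
      have h1 := dist_triangle_right a b y'
      have h2 := hWd a ha
      have h3 := hWd b hb
      have h4 := dist_nonneg (x := x) (y := y)
      linarith
    have hVL : ∀ a ∈ V, ∀ b ∈ L, dist a b ≤ dist x y + 2 * kp d := by
      intro a ha b hb
      have h1 := dist_triangle_right a b x'
      have h2 := hVd a ha
      have h3 := (hLx b hb).1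
      linarith
    have hWL : ∀ a ∈ W, ∀ b ∈ L, dist a b ≤ dist x y + 2 * kp d := by
      intro a ha b hb
      have h1 := dist_triangle_right a b y'
      have h2 := hWd a ha
      have h3 := (hLx b hb).2
      linarith
    have hVW : ∀ a ∈ V, ∀ b ∈ W, dist a b ≤ dist x y + 2 * kp d := by
      intro a ha b hb
      have h1 := dist_triangle4 a x' y' b
      have h2 := hVd a ha
      have h3 := hWd b hb
      rw [dist_comm b y'] at h3
      linarith
    have hxy0 := dist_nonneg (x := x) (y := y)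
    intro a ha b hb
    rcases ha with (ha | ha) | ha <;> rcases hb with (hb | hb) | hb
    · exact hVV a ha b hb
    · exact hVL a ha b hb
    · exact hVW a ha b hb
    · rw [dist_comm]; exact hVL b hb a ha
    · linarith [hLL a ha b hb]
    · rw [dist_comm]; exact hWL b hb a ha
    · rw [dist_comm]; exact hVW b hb a ha
    · exact hWL a ha b hb
    · exact hWW a ha b hb
  have hS0b : Bornology.IsBounded S0 := (isCompact_multibrot hd).isBounded.subset hS0M
  refine ⟨closure S0, closure_minimal hS0M (isCompact_multibrot hd).isClosed, hS0b.isCompact_closure,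
    ⟨⟨x, subset_closure (Or.inl (Or.inl hxV))⟩, hS0p.closure⟩, subset_closure (Or.inl (Or.inl hxV)),
    subset_closure (Or.inr hyW), ?_⟩
  rw [Metric.diam_closure]
  apply Metric.diam_le_of_forall_dist_le _ hdiam
  have := dist_nonneg (x := x) (y := y)
  have h2 : 0 ≤ 2 * kp d := by linarith
  exact add_nonneg this h2

end Pool.Agent.X201.MB
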