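import Mathlib
import Pool.Agent.X201.MB.Fin
import Pool.Agent.X201.MB.Chan

set_option autoImplicit false

open Complex Set Topology Filter Metric N62a1eb23
open scoped ComplexConjugate

namespace Pool.Agent.X201.MB

open Pool.Agent.H712R2 Pool.Agent.H713R2

/-! ### The reflection -/

theorem P_conj (n k : ℕ) (c : ℂ) : P n k (conj c) = conj (P n k c) := by
  induction k with
  | zero => rw [P_zero, P_zero, map_zero]
  | succ k ih => rw [P_succ, P_succ, ih, map_add, map_pow]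

theorem conj_mem {n : ℕ} (hn : 2 ≤ n) {c : ℂ} : conj c ∈ multibrotSet n ↔ c ∈ multibrotSet n := by
  rw [mem_multibrot_iff hn, mem_multibrot_iff hn]
  simp only [P_conj, Complex.norm_conj]

theorem conj_diff {s : Set ℂ} (hs : IsOpen s) (hsc : ∀ x, x ∈ s → conj x ∈ s) {F : ℂ → ℂ}
    (hF : DifferentiableOn ℂ F s) : DifferentiableOn ℂ (fun x => conj (F (conj x))) s := by
  intro x hx
  have h1 : DifferentiableAt ℂ F (conj x) := (hF _ (hsc x hx)).differentiableAt (hs.mem_nhds (hsc x hx))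
  have h2 := h1.conj_conj
  simp only [Complex.conj_conj] at h2
  exact h2.differentiableWithinAt

theorem beta_conj {n : ℕ} (hn : 2 ≤ n) {β : ℂ → ℂ} (hβ : IsBeta n β) {x : ℂ}
    (hx : x ∈ ball (0:ℂ) 1) : β (conj x) = conj (β x) := by
  by_cases hx0 : x = 0
  · rw [hx0, map_zero, hβ.zero, map_one]
  have hE := exteriorMap_of_beta hβ
  set ψ : ℂ → ℂ := fun z => z * β z⁻¹ with hψ
  set ψ' : ℂ → ℂ := fun z => conj (ψ (conj z)) with hψ'
  have hE' : IsExteriorMap (multibrotSet n) ψ' := by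
    refine ⟨?_, ?_, ?_, ?_⟩
    · have ho : IsOpen {z : ℂ | 1 < ‖z‖} := isOpen_lt continuous_const continuous_norm
      exact conj_diff ho (fun z hz => by simpa using hz) hE.diff
    · intro z hz w hw h
      have h1 : ψ (conj z) = ψ (conj w) := (starRingEnd ℂ).injective h
      have h2 := hE.inj (show 1 < ‖conj z‖ by rw [Complex.norm_conj]; exact hz)
        (show 1 < ‖conj w‖ by rw [Complex.norm_conj]; exact hw) h1
      exact (starRingEnd ℂ).injective h2
    · ext c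
      constructor
      · rintro ⟨z, hz, rfl⟩
        have h1 : ψ (conj z) ∈ (multibrotSet n)ᶜ := by
          rw [← hE.image]
          exact mem_image_of_mem _ (show 1 < ‖conj z‖ by rw [Complex.norm_conj]; exact hz)
        intro h2
        exact h1 ((conj_mem hn).mp h2)
      · intro hc
        have h1 : conj c ∈ (multibrotSet n)ᶜ := fun h2 => hc ((conj_mem hn).mp h2)
        rw [← hE.image] at h1
        obtain ⟨z, hz, hzc⟩ := h1
        refine ⟨conj z, ?_, ?_⟩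
        · show 1 < ‖conj z‖
          rw [Complex.norm_conj]; exact hz
        · show conj (ψ (conj (conj z))) = c
          rw [Complex.conj_conj, hzc, Complex.conj_conj]
    · have h1 : Tendsto (fun z : ℂ => conj z) (Bornology.cobounded ℂ) (Bornology.cobounded ℂ) := by
        rw [← tendsto_norm_atTop_iff_cobounded]
        simp only [Complex.norm_conj]
        exact tendsto_norm_cobounded_atTop
      have h2 := (Complex.continuous_conj.tendsto 1).comp (hE.infinity.comp h1)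
      rw [map_one] at h2
      refine h2.congr fun z => ?_
      simp only [Function.comp_apply, hψ', hψ, map_div₀, Complex.conj_conj]
  have hz1 : 1 < ‖x⁻¹‖ := one_lt_norm_inv hx hx0
  have h3 := exteriorMap_unique hβ hE' hz1
  rw [inv_inv] at h3
  simp only [hψ', hψ] at h3
  have h4 : (conj x⁻¹)⁻¹ = conj x := by rw [← map_inv₀, inv_inv]
  rw [h4, map_mul, Complex.conj_conj] at h3
  have h5 := mul_left_cancel₀ (inv_ne_zero hx0) h3
  rw [← h5, Complex.conj_conj]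

/-- all the data for one degree, with the logarithm -/
structure LData (n : ℕ) (β B L : ℂ → ℂ) : Prop where
  beta : IsBeta n β
  diffB : DifferentiableOn ℂ B (ball 0 1)
  eqB : ∀ x ∈ ball (0:ℂ) 1, β x = B (x ^ (n - 1))
  diffL : DifferentiableOn ℂ L (ball 0 1)
  zeroL : L 0 = 0
  expL : ∀ X ∈ ball (0:ℂ) 1, Complex.exp (L X) = B X

theorem root_mem {n : ℕ} (hn : 2 ≤ n) {X : ℂ} (hX : X ∈ ball (0:ℂ) 1) :
    ∃ x ∈ ball (0:ℂ) 1, x ^ (n - 1) = X := by
  have hN : n - 1 ≠ 0 := by omega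
  obtain ⟨x, hx⟩ := IsAlgClosed.exists_pow_nat_eq X (show 0 < n - 1 by omega)
  refine ⟨x, ?_, hx⟩
  rw [mem_ball_zero_iff] at hX ⊢
  rw [← hx, norm_pow] at hX
  exact (pow_lt_one_iff_of_nonneg (norm_nonneg x) hN).mp hX

theorem exists_ldata {n : ℕ} (hn : 2 ≤ n) {β : ℂ → ℂ} (hβ : IsBeta n β) :
    ∃ B L : ℂ → ℂ, LData n β B L := by
  have hN : n - 1 ≠ 0 := by omega
  obtain ⟨B, hB, hBβ, -, -⟩ := exists_factor (N := n - 1) (by omega) hβ.diff
    (fun ω hω x hx => beta_symm hn hβ hω hx)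
  have hB0 : B 0 = 1 := by
    have := hBβ 0 (mem_ball_self one_pos)
    rw [zero_pow hN, hβ.zero] at this
    exact this.symm
  have hBne : ∀ X ∈ ball (0:ℂ) 1, B X ≠ 0 := by
    intro X hX h0
    obtain ⟨x, hxb, hx⟩ := root_mem hn hX
    have h1 := hBβ x hxb
    rw [hx, h0] at h1
    by_cases hx0 : x = 0
    · rw [hx0, hβ.zero] at h1; exact one_ne_zero h1
    · apply hβ.notMem x hxb hx0
      rw [h1, mul_zero]
      exact disc_subset hn (by simpa using (rr_pos hn).le)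
  obtain ⟨L, hLd, hL0, hLe⟩ := exists_log_disc hB hB0 hBne
  exact ⟨B, L, hβ, hB, hBβ, hLd, hL0, hLe⟩

theorem B_conj {n : ℕ} (hn : 2 ≤ n) {β B L : ℂ → ℂ} (h : LData n β B L) {X : ℂ}
    (hX : X ∈ ball (0:ℂ) 1) : B (conj X) = conj (B X) := by
  obtain ⟨x, hxb, rfl⟩ := root_mem hn hX
  have hxc : conj x ∈ ball (0:ℂ) 1 := by
    rw [mem_ball_zero_iff, Complex.norm_conj]; exact mem_ball_zero_iff.mp hxb
  rw [map_pow, ← h.eqB x hxb, ← h.eqB _ hxc, beta_conj hn h.beta hxb]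

theorem conj_data {n : ℕ} (hn : 2 ≤ n) {β B L : ℂ → ℂ} (h : LData n β B L) :
    LData n β B (fun X => conj (L (conj X))) := by
  have hc : ∀ X : ℂ, X ∈ ball (0:ℂ) 1 → conj X ∈ ball (0:ℂ) 1 := by
    intro X hX
    rw [mem_ball_zero_iff, Complex.norm_conj]; exact mem_ball_zero_iff.mp hX
  refine ⟨h.beta, h.diffB, h.eqB, conj_diff isOpen_ball hc h.diffL, ?_, ?_⟩
  · simp [h.zeroL]
  · intro X hX
    show Complex.exp (conj (L (conj X))) = B X
    rw [Complex.exp_conj, h.expL _ (hc X hX), B_conj hn h hX, Complex.conj_conj]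

/-- the map `X ↦ c ^ (n - 1)` is injective -/
theorem T_inj {n : ℕ} (hn : 2 ≤ n) {β B L : ℂ → ℂ} (h : LData n β B L) {X Y : ℂ}
    (hX : X ∈ ball (0:ℂ) 1) (hY : Y ∈ ball (0:ℂ) 1) (hX0 : X ≠ 0) (hY0 : Y ≠ 0)
    (he : X⁻¹ * B X ^ (n - 1) = Y⁻¹ * B Y ^ (n - 1)) : X = Y := by
  have hN : n - 1 ≠ 0 := by omega
  obtain ⟨x, hxb, hx⟩ := root_mem hn hX
  obtain ⟨y, hyb, hy⟩ := root_mem hn hY
  have hx0 : x ≠ 0 := by rintro rfl; rw [zero_pow hN] at hx; exact hX0 hx.symm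
  have hy0 : y ≠ 0 := by rintro rfl; rw [zero_pow hN] at hy; exact hY0 hy.symm
  have e1 : (x⁻¹ * β x) ^ (n - 1) = (y⁻¹ * β y) ^ (n - 1) := by
    rw [mul_pow, mul_pow, inv_pow, inv_pow, h.eqB x hxb, h.eqB y hyb, hx, hy]
    exact he
  have hb : y⁻¹ * β y ≠ 0 := by
    intro h0
    apply h.beta.notMem y hyb hy0
    rw [h0]
    exact disc_subset hn (by simpa using (rr_pos hn).le)
  set ω := (x⁻¹ * β x) / (y⁻¹ * β y) with hω
  have hωN : ω ^ (n - 1) = 1 := by
    rw [hω, div_pow, e1, div_self (pow_ne_zero _ hb)]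
  have hω0 : ω ≠ 0 := by
    intro h0
    rw [h0, zero_pow hN] at hωN
    exact zero_ne_one hωN
  have hω1 : ‖ω‖ = 1 := by
    have : ‖ω‖ ^ (n - 1) = 1 := by rw [← norm_pow, hωN, norm_one]
    exact (pow_eq_one_iff_of_nonneg (norm_nonneg _) (by omega)).mp this
  have hωi : (ω⁻¹) ^ (n - 1) = 1 := by rw [inv_pow, hωN, inv_one]
  have e2 : x⁻¹ * β x = (ω⁻¹ * y)⁻¹ * β (ω⁻¹ * y) := by
    rw [beta_symm hn h.beta hωi hyb, mul_inv, inv_inv, mul_assoc, hω, div_mul_cancel₀ _ hb]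
  have hyb' : ω⁻¹ * y ∈ ball (0:ℂ) 1 := by
    rw [mem_ball_zero_iff, norm_mul, norm_inv, hω1, inv_one, one_mul]
    exact mem_ball_zero_iff.mp hyb
  have e3 := h.beta.inj x hxb (ω⁻¹ * y) hyb' hx0 (mul_ne_zero (inv_ne_zero hω0) hy0) e2
  rw [← hx, ← hy, e3, mul_pow, hωi, one_mul]

theorem T_im_ne {n : ℕ} (hn : 2 ≤ n) {β B L : ℂ → ℂ} (h : LData n β B L) {X : ℂ}
    (hX : X ∈ ball (0:ℂ) 1) (him : X.im ≠ 0) : (X⁻¹ * B X ^ (n - 1)).im ≠ 0 := by
  intro h0
  have hX0 : X ≠ 0 := by rintro rfl; exact him rfl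
  have hXc : conj X ∈ ball (0:ℂ) 1 := by
    rw [mem_ball_zero_iff, Complex.norm_conj]; exact mem_ball_zero_iff.mp hX
  have hXc0 : conj X ≠ 0 := by
    intro h1
    exact hX0 ((map_eq_zero _).mp h1)
  have e1 : (conj X)⁻¹ * B (conj X) ^ (n - 1) = X⁻¹ * B X ^ (n - 1) := by
    rw [B_conj hn h hX, ← map_inv₀, ← map_pow, ← map_mul]
    exact Complex.conj_eq_iff_im.mpr h0
  have h2 := T_inj hn h hXc hX hXc0 hX0 e1
  exact him (Complex.conj_eq_iff_im.mp h2)

/-! ### The argument of `ψ w / w` -/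

theorem arg_lower {n : ℕ} (hn : 2 ≤ n) {β B L : ℂ → ℂ} (h : LData n β B L) {X : ℂ}
    (hX : X ∈ ball (0:ℂ) 1) (him : X.im < 0) : |(((n:ℂ) - 1) * L X).im| < Real.pi := by
  have hpi := Real.pi_pos
  have hNc : ((n - 1 : ℕ) : ℂ) = n - 1 := by rw [Nat.cast_sub (by omega)]; simp
  set D : Set ℂ := ball (0:ℂ) 1 ∩ {z | z.im < 0} with hD
  have hDc : Convex ℝ D := (convex_ball _ _).inter (convex_halfSpace_im_lt 0)
  have hDp : IsPreconnected D := hDc.isPreconnected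
  have hinvim : ∀ z ∈ D, 0 < (z⁻¹).im := by
    intro z hz
    have hz2 : z.im < 0 := hz.2
    have hz0 : z ≠ 0 := by rintro rfl; simp at hz2
    rw [Complex.inv_im]
    apply div_pos (by linarith) (Complex.normSq_pos.mpr hz0)
  set a : ℂ → ℝ := fun z => (((n:ℂ) - 1) * L z + Complex.log z⁻¹).im with ha
  have hac : ContinuousOn a D := by
    apply Complex.continuous_im.comp_continuousOn
    apply ContinuousOn.add
    · exact (continuousOn_const.mul h.diffL.continuousOn).mono inter_subset_left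
    · intro z hz
      have hz2 : z.im < 0 := hz.2
      have hz0 : z ≠ 0 := by rintro rfl; simp at hz2
      apply ContinuousAt.continuousWithinAt
      apply (continuousAt_inv₀ hz0).clog
      right
      exact (hinvim z hz).ne'
  have hexp : ∀ z ∈ D, Complex.exp (((n:ℂ) - 1) * L z + Complex.log z⁻¹) = z⁻¹ * B z ^ (n - 1) := by
    intro z hz
    have hz2 : z.im < 0 := hz.2
    have hz0 : z ≠ 0 := by rintro rfl; simp at hz2
    rw [Complex.exp_add, Complex.exp_log (inv_ne_zero hz0), ← hNc, Complex.exp_nat_mul,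
      h.expL z hz.1, mul_comm]
  have hsin : ∀ z ∈ D, Real.sin (a z) ≠ 0 := by
    intro z hz h0
    have h1 := T_im_ne hn h hz.1 (ne_of_lt hz.2)
    rw [← hexp z hz, Complex.exp_im] at h1
    apply h1
    show Real.exp _ * Real.sin (a z) = 0
    rw [h0, mul_zero]
  -- a starting point
  obtain ⟨z0, hz0D, hz0⟩ : ∃ z0 ∈ D, a z0 ∈ Ioo 0 Real.pi := by
    have hLc : ContinuousAt (fun z => (((n:ℂ) - 1) * L z).im) 0 := by
      have h1 : ContinuousAt L 0 := (h.diffL.differentiableAt (ball_mem_nhds 0 one_pos)).continuousAt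
      fun_prop
    have h2 : ∀ᶠ z in 𝓝 (0:ℂ), |(((n:ℂ) - 1) * L z).im| < Real.pi / 2 := by
      have h3 := (hLc.abs).eventually (gt_mem_nhds (show |(((n:ℂ) - 1) * L 0).im| < Real.pi / 2 by
        rw [h.zeroL, mul_zero, Complex.zero_im, abs_zero]; positivity))
      exact h3
    obtain ⟨ε, hε, hball⟩ := Metric.eventually_nhds_iff_ball.mp h2
    set δ : ℝ := min (ε / 2) (1 / 2) with hδ
    have hδ0 : 0 < δ := lt_min (by linarith) (by norm_num)
    have hnorm : ‖-((δ:ℂ) * I)‖ = δ := by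
      rw [norm_neg, norm_mul, Complex.norm_I, mul_one, Complex.norm_real, Real.norm_eq_abs, abs_of_pos hδ0]
    refine ⟨-(δ * I), ⟨?_, ?_⟩, ?_⟩
    · rw [mem_ball_zero_iff, hnorm]
      exact lt_of_le_of_lt (min_le_right _ _) (by norm_num)
    · show (-((δ:ℂ) * I)).im < 0
      simp [hδ0]
    · have h4 := hball (-(δ * I)) (by
        rw [mem_ball_zero_iff, hnorm]
        exact lt_of_le_of_lt (min_le_left _ _) (by linarith))
      have h5 : (-((δ:ℂ) * I))⁻¹ = ((δ⁻¹ : ℝ) : ℂ) * I := by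
        rw [← neg_inv, mul_inv, Complex.inv_I]
        push_cast
        ring
      have h6 : (Complex.log ((-((δ:ℂ) * I))⁻¹)).im = Real.pi / 2 := by
        rw [h5, Complex.log_im, Complex.arg_real_mul _ (inv_pos.mpr hδ0), Complex.arg_I]
      have h7 : a (-(δ * I)) = (((n:ℂ) - 1) * L (-(δ * I))).im + Real.pi / 2 := by
        simp only [ha]
        rw [Complex.add_im, h6]
      rw [h7]
      have h8 := abs_lt.mp h4
      constructor <;> linarith [h8.1, h8.2]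
  have hXD : X ∈ D := ⟨hX, him⟩
  have haX : a X ∈ Ioo 0 Real.pi := by
    constructor
    · by_contra hcon
      push Not at hcon
      obtain ⟨z, hz, hz1⟩ := hDp.intermediate_value hXD hz0D hac (show (0:ℝ) ∈ Icc (a X) (a z0) from
        ⟨hcon, hz0.1.le⟩)
      exact hsin z hz (by rw [hz1, Real.sin_zero])
    · by_contra hcon
      push Not at hcon
      obtain ⟨z, hz, hz1⟩ := hDp.intermediate_value hz0D hXD hac (show Real.pi ∈ Icc (a z0) (a X) from
        ⟨hz0.2.le, hcon⟩)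
      exact hsin z hz (by rw [hz1, Real.sin_pi])
  have harg : 0 ≤ (Complex.log X⁻¹).im ∧ (Complex.log X⁻¹).im ≤ Real.pi := by
    rw [Complex.log_im]
    exact ⟨Complex.arg_nonneg_iff.mpr (hinvim X hXD).le, Complex.arg_le_pi _⟩
  have harg2 : 0 < (Complex.log X⁻¹).im ∧ (Complex.log X⁻¹).im < Real.pi := by
    have h1 := hinvim X hXD
    rw [Complex.log_im]
    constructor
    · rcases lt_or_eq_of_le (Complex.arg_nonneg_iff.mpr h1.le) with h2 | h2
      · exact h2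
      · have := Complex.arg_eq_zero_iff.mp h2.symm
        linarith [this.2]
    · rcases lt_or_eq_of_le (Complex.arg_le_pi X⁻¹) with h2 | h2
      · exact h2
      · have := Complex.arg_eq_pi_iff.mp h2
        linarith [this.2]
  have h9 : a X = (((n:ℂ) - 1) * L X).im + (Complex.log X⁻¹).im := by
    simp only [ha]
    rw [Complex.add_im]
  rw [h9] at haX
  rw [abs_lt]
  constructor <;> linarith [haX.1, haX.2, harg2.1, harg2.2]

theorem arg_real {n : ℕ} (hn : 2 ≤ n) {β B L : ℂ → ℂ} (h : LData n β B L) {X : ℂ}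
    (hX : X ∈ ball (0:ℂ) 1) (him : X.im = 0) : |(((n:ℂ) - 1) * L X).im| < Real.pi := by
  have hpi := Real.pi_pos
  have hNc : ((n - 1 : ℕ) : ℂ) = n - 1 := by rw [Nat.cast_sub (by omega)]; simp
  have hseg : ∀ t ∈ Icc (0:ℝ) 1, (t:ℂ) * X ∈ ball (0:ℂ) 1 := by
    intro t ht
    rw [mem_ball_zero_iff, norm_mul, Complex.norm_real, Real.norm_eq_abs, abs_of_nonneg ht.1]
    calc t * ‖X‖ ≤ 1 * ‖X‖ := by gcongr; exact ht.2
      _ < 1 := by rw [one_mul]; exact mem_ball_zero_iff.mp hX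
  have hcont : ContinuousOn (fun t : ℝ => |(((n:ℂ) - 1) * L ((t:ℂ) * X)).im|) (Icc 0 1) := by
    apply ContinuousOn.abs
    apply Complex.continuous_im.comp_continuousOn
    apply ContinuousOn.mul continuousOn_const
    apply h.diffL.continuousOn.comp (by fun_prop)
    intro t ht
    exact hseg t ht
  by_contra hcon
  push Not at hcon
  have h1 : Real.pi / 2 ∈ Icc (|(((n:ℂ) - 1) * L (((0:ℝ):ℂ) * X)).im|) (|(((n:ℂ) - 1) * L (((1:ℝ):ℂ) * X)).im|) := by
    constructor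
    · simp [h.zeroL]; positivity
    · simp only [Complex.ofReal_one, one_mul]; linarith
  obtain ⟨t, ht, hte⟩ := intermediate_value_Icc zero_le_one hcont h1
  have hte' : |(((n:ℂ) - 1) * L ((t:ℂ) * X)).im| = Real.pi / 2 := hte
  have hz := hseg t ht
  have hzc : conj ((t:ℂ) * X) = (t:ℂ) * X := by
    rw [map_mul, Complex.conj_ofReal, Complex.conj_eq_iff_im.mpr him]
  have h2 : (B ((t:ℂ) * X)).im = 0 := by
    have := B_conj hn h hz
    rw [hzc] at this
    exact Complex.conj_eq_iff_im.mp this.symm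
  have h3 : (B ((t:ℂ) * X) ^ (n - 1)).im = 0 := by
    have h4 := Complex.conj_eq_iff_im.mpr h2
    apply Complex.conj_eq_iff_im.mp
    rw [map_pow, h4]
  rw [← h.expL _ hz, ← Complex.exp_nat_mul, hNc, Complex.exp_im] at h3
  have h5 : Real.sin (((n:ℂ) - 1) * L ((t:ℂ) * X)).im = 0 :=
    (mul_eq_zero.mp h3).resolve_left (Real.exp_pos _).ne'
  rcases abs_eq (by positivity : (0:ℝ) ≤ Real.pi / 2) |>.mp hte' with h6 | h6
  · rw [h6, Real.sin_pi_div_two] at h5
    exact one_ne_zero h5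
  · rw [h6, Real.sin_neg, Real.sin_pi_div_two] at h5
    norm_num at h5

theorem arg_all {n : ℕ} (hn : 2 ≤ n) {β B L : ℂ → ℂ} (h : LData n β B L) {X : ℂ}
    (hX : X ∈ ball (0:ℂ) 1) : |(((n:ℂ) - 1) * L X).im| < Real.pi := by
  rcases lt_trichotomy X.im 0 with h1 | h1 | h1
  · exact arg_lower hn h hX h1
  · exact arg_real hn h hX h1
  · have hXc : conj X ∈ ball (0:ℂ) 1 := by
      rw [mem_ball_zero_iff, Complex.norm_conj]; exact mem_ball_zero_iff.mp hX
    have h2 := arg_lower hn (conj_data hn h) hXc (by rw [Complex.conj_im]; linarith)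
    simp only [Complex.conj_conj] at h2
    have h3 : (((n:ℂ) - 1) * conj (L X)) = conj (((n:ℂ) - 1) * L X) := by
      rw [map_mul, map_sub, map_one, Complex.conj_natCast]
    rw [h3, Complex.conj_im, abs_neg] at h2
    exact h2

/-! ### The modulus of `ψ w / w` -/

theorem beta_upper {n : ℕ} (hn : 2 ≤ n) {β : ℂ → ℂ} (hβ : IsBeta n β) {x : ℂ}
    (hx : x ∈ ball (0:ℂ) 1) : ‖β x‖ ≤ 1 + 1 / ((n:ℝ) - 1) := by
  apply max_disc hβ.diff _ hx
  intro η hη
  obtain ⟨r, hr0, hr1, hr⟩ := near_boundary hβ (g := fun c => ‖c‖) continuous_norm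
    (A := 1 + 1 / ((n:ℝ) - 1)) (fun c hc => norm_le_outer hn hc) hη
  refine ⟨r, hr1, ?_⟩
  intro y hy hry
  have h1 := hr y hy hry
  have hy0 : 0 < ‖y‖ := lt_of_lt_of_le hr0 hry
  have hy1 := mem_ball_zero_iff.mp hy
  rw [norm_mul, norm_inv] at h1
  have h2 : ‖β y‖ = ‖y‖ * (‖y‖⁻¹ * ‖β y‖) := by field_simp
  have h3 : 0 ≤ ‖y‖⁻¹ * ‖β y‖ := by positivity
  rw [h2]
  calc ‖y‖ * (‖y‖⁻¹ * ‖β y‖) ≤ 1 * (‖y‖⁻¹ * ‖β y‖) := by gcongr
    _ ≤ _ := by rw [one_mul]; exact h1.le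

theorem beta_lower {n : ℕ} (hn : 2 ≤ n) {β B L : ℂ → ℂ} (h : LData n β B L) {x : ℂ}
    (hx : x ∈ ball (0:ℂ) 1) : rr n ≤ ‖β x‖ := by
  have hr := rr_pos hn
  have hball : ∀ y ∈ ball (0:ℂ) 1, y ^ (n - 1) ∈ ball (0:ℂ) 1 := by
    intro y hy
    rw [mem_ball_zero_iff, norm_pow]
    exact pow_lt_one₀ (norm_nonneg _) (mem_ball_zero_iff.mp hy) (by omega)
  have hne : ∀ y ∈ ball (0:ℂ) 1, β y ≠ 0 := by
    intro y hy
    rw [h.eqB y hy, ← h.expL _ (hball y hy)]
    exact Complex.exp_ne_zero _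
  have hd1 : DifferentiableOn ℂ (fun y => (β y)⁻¹) (ball 0 1) := h.beta.diff.inv hne
  have h1 : ‖(β x)⁻¹‖ ≤ 1 / rr n := by
    apply max_disc hd1 _ hx
    intro η hη
    set K := 1 / rr n with hK
    have hK0 : 0 < K := one_div_pos.mpr hr
    refine ⟨K / (K + η), ?_, ?_⟩
    · rw [div_lt_one (by positivity)]; linarith
    · intro Y hY hrY
      have hY0 : 0 < ‖Y‖ := lt_of_lt_of_le (by positivity) hrY
      have h2 : rr n < ‖Y⁻¹ * β Y‖ := by
        by_contra hcon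
        push Not at hcon
        exact h.beta.notMem Y hY (norm_pos_iff.mp hY0) (disc_subset hn hcon)
      rw [norm_mul, norm_inv, lt_inv_mul_iff₀ hY0] at h2
      rw [norm_inv]
      have h3 : 0 < ‖Y‖ * rr n := mul_pos hY0 hr
      calc ‖β Y‖⁻¹ ≤ (‖Y‖ * rr n)⁻¹ := inv_anti₀ h3 h2.le
        _ = K / ‖Y‖ := by rw [hK]; field_simp
        _ ≤ K + η := by
          rw [div_le_iff₀ hY0]
          rw [div_le_iff₀ (by positivity)] at hrY
          linarith
  rw [norm_inv, one_div] at h1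
  exact (inv_le_inv₀ (norm_pos_iff.mpr (hne x hx)) hr).mp h1

theorem rr_log {n : ℕ} (hn : 2 ≤ n) : -((Real.log n + 1) / ((n:ℝ) - 1)) ≤ Real.log (rr n) := by
  have hnr : (2:ℝ) ≤ n := by exact_mod_cast hn
  have hn1 : (0:ℝ) < n - 1 := by linarith
  have h0 : (0:ℝ) < 1 - 1 / n := by
    have : 1 / (n:ℝ) < 1 := by rw [div_lt_one (by linarith)]; linarith
    linarith
  rw [rr_eq hn, Real.log_mul (sr_pos n).ne' h0.ne']
  have h1 : Real.log (sr n) = -(Real.log n / (n - 1)) := by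
    unfold sr; rw [Real.log_exp]
  have h2 := Real.one_sub_inv_le_log_of_pos h0
  have h3 : (1:ℝ) - (1 - 1 / (n:ℝ))⁻¹ = -(1 / ((n:ℝ) - 1)) := by
    have : (n:ℝ) ≠ 0 := by positivity
    have h4 : (n:ℝ) - 1 ≠ 0 := hn1.ne'
    have h5 : 1 - 1 / (n:ℝ) = (n - 1) / n := by field_simp
    rw [h5, inv_div]
    field_simp
    ring
  rw [h1]
  rw [h3] at h2
  rw [add_div]
  linarith

theorem re_all {n : ℕ} (hn : 2 ≤ n) {β B L : ℂ → ℂ} (h : LData n β B L) {X : ℂ}
    (hX : X ∈ ball (0:ℂ) 1) : -((Real.log n + 1) / ((n:ℝ) - 1)) ≤ (L X).re ∧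
      (L X).re ≤ 1 / ((n:ℝ) - 1) := by
  have hnr : (2:ℝ) ≤ n := by exact_mod_cast hn
  have hn1 : (0:ℝ) < n - 1 := by linarith
  obtain ⟨x, hxb, rfl⟩ := root_mem hn hX
  have h1 : (L (x ^ (n - 1))).re = Real.log ‖β x‖ := by
    rw [h.eqB x hxb, ← h.expL _ hX, Complex.norm_exp, Real.log_exp]
  rw [h1]
  have h2 := beta_lower hn h hxb
  have h3 := beta_upper hn h.beta hxb
  have hr := rr_pos hn
  constructor
  · exact (rr_log hn).trans (Real.log_le_log hr h2)
  · calc Real.log ‖β x‖ ≤ ‖β x‖ - 1 := Real.log_le_sub_one_of_pos (hr.trans_le h2)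
      _ ≤ _ := by linarith

/-- everything about `ψ w / w` -/
theorem psi_log {n : ℕ} (hn : 2 ≤ n) {ψ : ℂ → ℂ} (hψ : IsExteriorMap (multibrotSet n) ψ) {w : ℂ}
    (hw : 1 < ‖w‖) : ∃ z : ℂ, ψ w = w * Complex.exp z ∧ Complex.log (ψ w / w) = z ∧
      -((Real.log n + 1) / ((n:ℝ) - 1)) ≤ z.re ∧ z.re ≤ 1 / ((n:ℝ) - 1) ∧
      |z.im| < Real.pi / ((n:ℝ) - 1) := by
  have hnr : (2:ℝ) ≤ n := by exact_mod_cast hn
  have hn1 : (0:ℝ) < n - 1 := by linarith
  have hpi := Real.pi_pos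
  obtain ⟨β, hβ⟩ := exists_beta hn
  obtain ⟨B, L, h⟩ := exists_ldata hn hβ
  obtain ⟨hx, hx0⟩ := inv_mem_ball hw
  have hw0 : w ≠ 0 := fun h => hx0 (by rw [h, inv_zero])
  have h1 := exteriorMap_unique hβ hψ hw
  have hX : (w⁻¹) ^ (n - 1) ∈ ball (0:ℂ) 1 := by
    rw [mem_ball_zero_iff, norm_pow]
    exact pow_lt_one₀ (norm_nonneg _) (mem_ball_zero_iff.mp hx) (by omega)
  set z := L ((w⁻¹) ^ (n - 1)) with hz
  have h2 : ψ w = w * Complex.exp z := by
    rw [h1, h.eqB _ hx, hz, h.expL _ hX]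
  have h3 := arg_all hn h hX
  have h5 : |z.im| < Real.pi / ((n:ℝ) - 1) := by
    have h4' : (((n:ℂ) - 1) * L (w⁻¹ ^ (n - 1))).im = ((n:ℝ) - 1) * z.im := by
      have : ((n:ℂ) - 1) = (((n:ℝ) - 1 : ℝ) : ℂ) := by push_cast; ring
      rw [this, Complex.im_ofReal_mul]
    rw [h4', abs_mul, abs_of_pos hn1] at h3
    rw [lt_div_iff₀ hn1]
    linarith
  have h6 := re_all hn h hX
  refine ⟨z, h2, ?_, h6.1, h6.2, h5⟩
  rw [h2, mul_div_cancel_left₀ _ hw0]
  have h7 : |z.im| < Real.pi := by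
    refine h5.trans_le ?_
    rw [div_le_iff₀ hn1]
    nlinarith
  have h8 := abs_lt.mp h7
  exact Complex.log_exp h8.1 h8.2.le

end Pool.Agent.X201.MB
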