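import Mathlib
import Pool.Agent.X201.MB.Up

set_option autoImplicit false

open Complex Set Topology Filter Metric N62a1eb23 MeasureTheory
open scoped ComplexConjugate

namespace Pool.Agent.X201.MB

open Pool.Agent.H712R2 Pool.Agent.H713R2

theorem exp_moment {F : ℂ → ℂ} (hF : DifferentiableOn ℂ F (ball 0 1)) (hF0 : F 0 = 0) {M : ℝ}
    (hM : 0 < M) (hre : ∀ x ∈ ball (0:ℂ) 1, |(F x).re| ≤ M) {r : ℝ} (hr0 : 0 < r) (hr1 : r < 1) :
    ∫ θ in (0:ℝ)..(2 * Real.pi), Real.exp (Real.pi / (3 * M) * |(F (circleMap 0 r θ)).im|) ≤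
      8 * Real.pi := by
  have hpi := Real.pi_pos
  set l : ℝ := Real.pi / (3 * M) with hl
  have hl0 : 0 < l := by positivity
  have hlM : l * M = Real.pi / 3 := by rw [hl]; field_simp
  set G : ℂ → ℂ := fun x => Complex.exp (-(l * I) * F x) + Complex.exp ((l * I) * F x) with hG
  have hmem : ∀ θ : ℝ, circleMap 0 r θ ∈ ball (0:ℂ) 1 := by
    intro θ
    rw [mem_ball_zero_iff, norm_circleMap_zero, abs_of_pos hr0]
    exact hr1
  have hGd : DifferentiableOn ℂ G (ball 0 1) :=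
    ((hF.const_mul _).cexp).add ((hF.const_mul _).cexp)
  have hav : Real.circleAverage G 0 r = G 0 := by
    apply DiffContOnCl.circleAverage
    apply DifferentiableOn.diffContOnCl
    apply hGd.mono
    rw [abs_of_pos hr0, closure_ball _ hr0.ne']
    exact closedBall_subset_ball hr1
  have hG0 : G 0 = 2 := by
    simp only [hG, hF0, mul_zero, Complex.exp_zero]
    norm_num
  have hint : ∫ θ in (0:ℝ)..(2 * Real.pi), G (circleMap 0 r θ) = ((4 * Real.pi : ℝ) : ℂ) := by
    rw [Real.circleAverage_def, hG0] at hav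
    have h1 : ((2 * Real.pi : ℝ)) ≠ 0 := by positivity
    have h2 : ∫ θ in (0:ℝ)..(2 * Real.pi), G (circleMap 0 r θ) = (2 * Real.pi : ℝ) • (2:ℂ) := by
      rw [← hav, smul_smul, mul_inv_cancel₀ h1, one_smul]
    rw [h2, Complex.real_smul]
    push_cast
    ring
  have hGc : Continuous fun θ : ℝ => G (circleMap 0 r θ) :=
    hGd.continuousOn.comp_continuous (continuous_circleMap 0 r) hmem
  have hFc : Continuous fun θ : ℝ => F (circleMap 0 r θ) :=
    hF.continuousOn.comp_continuous (continuous_circleMap 0 r) hmem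
  have hre2 : ∫ θ in (0:ℝ)..(2 * Real.pi), (G (circleMap 0 r θ)).re = 4 * Real.pi := by
    have h3 := Complex.reCLM.intervalIntegral_comp_comm (hGc.intervalIntegrable (μ := volume) 0 (2 * Real.pi))
    simp only [Complex.reCLM_apply] at h3
    rw [h3, hint, Complex.ofReal_re]
  have hpt : ∀ θ : ℝ, Real.exp (l * |(F (circleMap 0 r θ)).im|) ≤ 2 * (G (circleMap 0 r θ)).re := by
    intro θ
    set z := F (circleMap 0 r θ) with hz
    have h4 := hre _ (hmem θ)
    rw [← hz] at h4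
    have h5 : (G (circleMap 0 r θ)).re = (Real.exp (l * z.im) + Real.exp (-(l * z.im))) * Real.cos (l * z.re) := by
      simp only [hG]
      rw [← hz, Complex.add_re, Complex.exp_re, Complex.exp_re]
      have e1 : (-(↑l * I) * z).re = l * z.im := by simp
      have e2 : (-(↑l * I) * z).im = -(l * z.re) := by simp
      have e3 : ((↑l * I) * z).re = -(l * z.im) := by simp
      have e4 : ((↑l * I) * z).im = l * z.re := by simp
      rw [e1, e2, e3, e4, Real.cos_neg]
      ring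
    have h6 : 1 / 2 ≤ Real.cos (l * z.re) := by
      rw [← Real.cos_pi_div_three, ← Real.cos_abs (l * z.re)]
      apply Real.cos_le_cos_of_nonneg_of_le_pi (abs_nonneg _) (by linarith)
      rw [abs_mul, abs_of_pos hl0, ← hlM]
      gcongr
    have h7 : Real.exp (l * |z.im|) ≤ Real.exp (l * z.im) + Real.exp (-(l * z.im)) := by
      rcases abs_cases z.im with ⟨h8, -⟩ | ⟨h8, -⟩
      · rw [h8]
        linarith [Real.exp_pos (-(l * z.im))]
      · rw [h8, mul_neg]
        linarith [Real.exp_pos (l * z.im)]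
    have h9 : 0 ≤ Real.exp (l * z.im) + Real.exp (-(l * z.im)) := by positivity
    rw [h5]
    nlinarith
  calc ∫ θ in (0:ℝ)..(2 * Real.pi), Real.exp (l * |(F (circleMap 0 r θ)).im|)
      ≤ ∫ θ in (0:ℝ)..(2 * Real.pi), 2 * (G (circleMap 0 r θ)).re := by
        apply intervalIntegral.integral_mono_on (by positivity)
        · apply Continuous.intervalIntegrable
          exact Real.continuous_exp.comp (continuous_const.mul ((Complex.continuous_im.comp hFc).abs))
        · apply Continuous.intervalIntegrable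
          exact continuous_const.mul (Complex.continuous_re.comp hGc)
        · intro θ _
          exact hpt θ
    _ = 8 * Real.pi := by
        rw [intervalIntegral.integral_const_mul, hre2]; ring

/-- exceptional sets are exponentially small, on every circle -/
theorem meas_im {F : ℂ → ℂ} (hF : DifferentiableOn ℂ F (ball 0 1)) (hF0 : F 0 = 0) {M : ℝ}
    (hM : 0 < M) (hre : ∀ x ∈ ball (0:ℂ) 1, |(F x).re| ≤ M) {R : ℝ} (hR : 1 < R) (s : ℝ) :
    volume {θ : ℝ | θ ∈ Icc 0 (2 * Real.pi) ∧ s ≤ |(F (((R:ℂ) * Complex.exp (θ * I))⁻¹)).im|} ≤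
      ENNReal.ofReal (8 * Real.pi * Real.exp (-(Real.pi / (3 * M) * s))) := by
  have hpi := Real.pi_pos
  set r := R⁻¹ with hr
  have hr0 : 0 < r := by positivity
  have hr1 : r < 1 := inv_lt_one_of_one_lt₀ hR
  set l : ℝ := Real.pi / (3 * M) with hl
  have hl0 : 0 < l := by positivity
  have hmem : ∀ θ : ℝ, circleMap 0 r θ ∈ ball (0:ℂ) 1 := by
    intro θ
    rw [mem_ball_zero_iff, norm_circleMap_zero, abs_of_pos hr0]
    exact hr1
  have hFc : Continuous fun θ : ℝ => F (circleMap 0 r θ) :=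
    hF.continuousOn.comp_continuous (continuous_circleMap 0 r) hmem
  have hcm : ∀ θ : ℝ, ((R:ℂ) * Complex.exp (θ * I))⁻¹ = circleMap 0 r (2 * Real.pi - θ) := by
    intro θ
    rw [circleMap, zero_add, mul_inv, ← Complex.exp_neg, hr]
    push_cast
    congr 1
    rw [sub_mul, Complex.exp_sub, Complex.exp_two_pi_mul_I, Complex.exp_neg, one_div]
  set g : ℝ → ℝ := fun θ => Real.exp (l * |(F (circleMap 0 r (2 * Real.pi - θ))).im|) with hg
  have hgc : Continuous g := by
    have h1 : Continuous fun θ : ℝ => F (circleMap 0 r (2 * Real.pi - θ)) :=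
      hFc.comp (by fun_prop : Continuous fun θ : ℝ => 2 * Real.pi - θ)
    exact Real.continuous_exp.comp (continuous_const.mul ((Complex.continuous_im.comp h1).abs))
  have hgi : ∫ θ in Icc (0:ℝ) (2 * Real.pi), g θ ≤ 8 * Real.pi := by
    rw [integral_Icc_eq_integral_Ioc, ← intervalIntegral.integral_of_le (by positivity)]
    have h2 := intervalIntegral.integral_comp_sub_left (a := 0) (b := 2 * Real.pi)
      (fun θ => Real.exp (l * |(F (circleMap 0 r θ)).im|)) (2 * Real.pi)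
    simp only [sub_zero, sub_self] at h2
    show ∫ θ in (0:ℝ)..(2 * Real.pi), Real.exp (l * |(F (circleMap 0 r (2 * Real.pi - θ))).im|) ≤ _
    rw [h2]
    exact exp_moment hF hF0 hM hre hr0 hr1
  have hch := mul_meas_ge_le_integral_of_nonneg (μ := volume.restrict (Icc (0:ℝ) (2 * Real.pi))) (f := g)
    (Eventually.of_forall fun θ => (Real.exp_pos _).le)
    (hgc.continuousOn.integrableOn_compact isCompact_Icc) (Real.exp (l * s))
  have hms : MeasurableSet {θ : ℝ | Real.exp (l * s) ≤ g θ} := measurableSet_le measurable_const hgc.measurable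
  have hle : volume.real ({θ : ℝ | Real.exp (l * s) ≤ g θ} ∩ Icc (0:ℝ) (2 * Real.pi)) ≤
      8 * Real.pi * Real.exp (-(l * s)) := by
    have h3 : (volume.restrict (Icc (0:ℝ) (2 * Real.pi))).real {θ : ℝ | Real.exp (l * s) ≤ g θ} =
        volume.real ({θ : ℝ | Real.exp (l * s) ≤ g θ} ∩ Icc (0:ℝ) (2 * Real.pi)) := by
      rw [measureReal_def, Measure.restrict_apply hms, ← measureReal_def]
    rw [h3] at hch
    have h4 := hch.trans hgi
    rw [Real.exp_neg, ← div_eq_mul_inv, le_div_iff₀ (Real.exp_pos _), mul_comm]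
    exact h4
  have hfin : volume ({θ : ℝ | Real.exp (l * s) ≤ g θ} ∩ Icc (0:ℝ) (2 * Real.pi)) ≠ ⊤ :=
    ((measure_mono inter_subset_right).trans_lt isCompact_Icc.measure_lt_top).ne
  have hsub : {θ : ℝ | θ ∈ Icc 0 (2 * Real.pi) ∧ s ≤ |(F (((R:ℂ) * Complex.exp (θ * I))⁻¹)).im|} ⊆
      {θ : ℝ | Real.exp (l * s) ≤ g θ} ∩ Icc (0:ℝ) (2 * Real.pi) := by
    rintro θ ⟨hθ, hs⟩
    refine ⟨?_, hθ⟩
    show Real.exp (l * s) ≤ Real.exp (l * |(F (circleMap 0 r (2 * Real.pi - θ))).im|)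
    rw [hcm] at hs
    apply Real.exp_le_exp.mpr
    gcongr
  refine (measure_mono hsub).trans ?_
  rw [← ENNReal.ofReal_toReal hfin]
  exact ENNReal.ofReal_le_ofReal hle

theorem const_72 : 8 * Real.pi * Real.exp (Real.pi / 3) ≤ 72 := by
  have h1 := Real.pi_lt_d4
  have h2 := Real.exp_one_lt_d9
  have h3 : Real.exp (Real.pi / 3) ≤ Real.exp 1 * Real.exp 0.0472 := by
    rw [← Real.exp_add]
    apply Real.exp_le_exp.mpr
    linarith
  have h4 : Real.exp 0.0472 ≤ 1.0496 := by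
    have h5 := Real.one_sub_le_exp_neg (0.0472)
    have h6 : Real.exp 0.0472 * Real.exp (-0.0472) = 1 := by rw [← Real.exp_add]; norm_num
    have h7 := Real.exp_pos 0.0472
    nlinarith
  have h8 : Real.exp (Real.pi / 3) ≤ 2.8532 := by
    have h9 := Real.exp_pos 0.0472
    have h10 := Real.exp_pos 1
    calc Real.exp (Real.pi / 3) ≤ Real.exp 1 * Real.exp 0.0472 := h3
      _ ≤ 2.7182818286 * 1.0496 := mul_le_mul h2.le h4 h9.le (by norm_num)
      _ ≤ 2.8532 := by norm_num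
  have h11 := Real.pi_pos
  have h12 := Real.exp_pos (Real.pi / 3)
  calc 8 * Real.pi * Real.exp (Real.pi / 3) ≤ 8 * 3.1416 * 2.8532 := by
        apply mul_le_mul _ h8 h12.le (by norm_num)
        linarith
    _ ≤ 72 := by norm_num

theorem meas_final {n : ℕ} (hn : 32 ≤ n) {ψ : ℂ → ℂ} (hψ : IsExteriorMap (multibrotSet n) ψ) {R : ℝ}
    (hR : 1 < R) {s : ℝ} (hs : 0 ≤ s) :
    volume {θ : ℝ | θ ∈ Icc 0 (2 * Real.pi) ∧ s * R ^ (n - 1) ≤
      ‖ψ ((R:ℂ) * Complex.exp (θ * I)) ^ (n - 1) - (((R:ℂ) * Complex.exp (θ * I)) ^ (n - 1) - 1)‖} ≤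
      ENNReal.ofReal (72 * Real.exp (-(s * ((n:ℝ) - 1) / (16 * (Real.log n + 3))))) := by
  have hpi := Real.pi_pos
  have hpi3 := Real.pi_gt_three
  have hn2 : 2 ≤ n := by omega
  have hN : n - 1 ≠ 0 := by omega
  have hnr : (32:ℝ) ≤ n := by exact_mod_cast hn
  have hn1 : (0:ℝ) < n - 1 := by linarith
  have hlog : 0 ≤ Real.log n := Real.log_nonneg (by linarith)
  obtain ⟨β, hβ⟩ := exists_beta hn2
  obtain ⟨B, hB, hBβ, -, -⟩ := exists_factor (N := n - 1) (by omega) hβ.diff
    (fun ω hω x hx => beta_symm hn2 hβ hω hx)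
  obtain ⟨H, hHd, hH0, hHe, hHr⟩ := main_est hn hβ hB hBβ
  have hdel := del_le hn
  have hdel0 : 0 < del n := by unfold del; positivity
  set M := 2 * del n with hM
  have hM0 : 0 < M := by positivity
  have hpow : ∀ x ∈ ball (0:ℂ) 1, x ^ (n - 1) ∈ ball (0:ℂ) 1 := by
    intro x hx
    rw [mem_ball_zero_iff, norm_pow]
    exact pow_lt_one₀ (norm_nonneg _) (mem_ball_zero_iff.mp hx) hN
  set F : ℂ → ℂ := fun x => H (x ^ (n - 1)) with hF
  have hFd : DifferentiableOn ℂ F (ball 0 1) := hHd.comp (by fun_prop) hpow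
  have hF0 : F 0 = 0 := by simp only [hF]; rw [zero_pow hN, hH0]
  have hFr : ∀ x ∈ ball (0:ℂ) 1, |(F x).re| ≤ M := fun x hx => hHr _ (hpow x hx)
  have hmain := meas_im hFd hF0 hM0 hFr hR (s / 4 - M)
  refine (measure_mono ?_).trans (hmain.trans (ENNReal.ofReal_le_ofReal ?_))
  · rintro θ ⟨hθ, hbad⟩
    refine ⟨hθ, ?_⟩
    set w : ℂ := (R:ℂ) * Complex.exp (θ * I) with hw
    have hwn : ‖w‖ = R := by
      rw [hw, norm_mul, Complex.norm_exp_ofReal_mul_I, mul_one, Complex.norm_real, Real.norm_eq_abs,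
        abs_of_pos (by linarith)]
    have hw1 : 1 < ‖w‖ := by rw [hwn]; exact hR
    obtain ⟨hx, hx0⟩ := inv_mem_ball hw1
    have hw0 : w ≠ 0 := fun h => hx0 (by rw [h, inv_zero])
    have h1 := exteriorMap_unique hβ hψ hw1
    have hX := hpow _ hx
    have hwp : w ^ (n - 1) ≠ 0 := pow_ne_zero _ hw0
    have h3 : ψ w ^ (n - 1) - (w ^ (n - 1) - 1) = w ^ (n - 1) * (Complex.exp (F w⁻¹) - 1) := by
      rw [hF]
      simp only
      rw [h1, hBβ _ hx, mul_pow, hHe _ hX, inv_pow]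
      field_simp
      ring
    rw [h3, norm_mul, norm_pow, hwn, mul_comm s] at hbad
    have hRp : 0 < R ^ (n - 1) := by positivity
    have h4 : s ≤ ‖Complex.exp (F w⁻¹) - 1‖ := le_of_mul_le_mul_left hbad hRp
    have h5 := hFr _ hx
    have h6 := exp_sub_one_le (z := F w⁻¹) (h5.trans (by linarith))
    have h7 := Complex.norm_le_abs_re_add_abs_im (F w⁻¹)
    linarith
  · have hlM : Real.pi / (3 * M) * M = Real.pi / 3 := by field_simp
    have e1 : -(Real.pi / (3 * M) * (s / 4 - M)) = Real.pi / 3 + -(Real.pi / (3 * M) * (s / 4)) := by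
      rw [mul_sub, hlM]; ring
    rw [e1, Real.exp_add, ← mul_assoc]
    apply mul_le_mul const_72 _ (Real.exp_pos _).le (by norm_num)
    apply Real.exp_le_exp.mpr
    rw [neg_le_neg_iff]
    have hMe : M = 4 * (Real.log n + 3) / ((n:ℝ) - 1) := by
      rw [hM]; unfold del; ring
    have e2 : Real.pi / (3 * M) * (s / 4) = (Real.pi / 3) * (s * ((n:ℝ) - 1) / (16 * (Real.log n + 3))) := by
      rw [hMe]
      have : Real.log n + 3 ≠ 0 := by positivity
      field_simp
      ring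
    rw [e2]
    have h8 : 0 ≤ s * ((n:ℝ) - 1) / (16 * (Real.log n + 3)) := by positivity
    nlinarith

/-! ### Uniform closeness and the impressions -/

theorem norm_log_le {n : ℕ} (hn : 2 ≤ n) {ψ : ℂ → ℂ} (hψ : IsExteriorMap (multibrotSet n) ψ) {w : ℂ}
    (hw : 1 < ‖w‖) : ‖Complex.log (ψ w / w)‖ ≤ (Real.log n + 5) / ((n:ℝ) - 1) := by
  have hnr : (2:ℝ) ≤ n := by exact_mod_cast hn
  have hn1 : (0:ℝ) < n - 1 := by linarith
  have hlog : 0 ≤ Real.log n := Real.log_nonneg (by linarith)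
  have hpi := Real.pi_lt_d2
  obtain ⟨z, -, h2, h3, h4, h5⟩ := psi_log hn hψ hw
  rw [h2]
  have h6 : |z.re| ≤ (Real.log n + 1) / ((n:ℝ) - 1) := by
    rw [abs_le]
    refine ⟨h3, h4.trans ?_⟩
    gcongr
    linarith
  calc ‖z‖ ≤ |z.re| + |z.im| := Complex.norm_le_abs_re_add_abs_im z
    _ ≤ (Real.log n + 1) / ((n:ℝ) - 1) + Real.pi / ((n:ℝ) - 1) := add_le_add h6 h5.le
    _ = (Real.log n + 1 + Real.pi) / ((n:ℝ) - 1) := by rw [← add_div]
    _ ≤ _ := by
      apply div_le_div_of_nonneg_right _ hn1.le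
      linarith

theorem exists_far {n : ℕ} (hn : 2 ≤ n) {ψ : ℂ → ℂ} (hψ : IsExteriorMap (multibrotSet n) ψ) :
    ∃ w : ℂ, 1 < ‖w‖ ∧ Real.log n / ((n:ℝ) - 1) < ‖Complex.log (ψ w / w)‖ := by
  have hnr : (2:ℝ) ≤ n := by exact_mod_cast hn
  have hn1 : (0:ℝ) < n - 1 := by linarith
  have hs := sr_pos n
  have hc : ((sr n : ℝ) : ℂ) ∈ (multibrotSet n)ᶜ := by
    intro h
    have h1 := real_le hn h (by simp)
    rw [Complex.ofReal_re, rr_eq hn] at h1
    have h2 : 0 < 1 / (n:ℝ) := by positivity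
    nlinarith
  rw [← hψ.image] at hc
  obtain ⟨w, hw, hwc⟩ := hc
  have hw1 : 1 < ‖w‖ := hw
  refine ⟨w, hw1, ?_⟩
  have h3 : (Complex.log (ψ w / w)).re = Real.log (sr n) - Real.log ‖w‖ := by
    rw [Complex.log_re, hwc, norm_div, Complex.norm_real, Real.norm_eq_abs, abs_of_pos hs,
      Real.log_div hs.ne' (by linarith)]
  have h4 : Real.log (sr n) = -(Real.log n / (n - 1)) := by
    unfold sr; rw [Real.log_exp]
  have h5 : 0 < Real.log ‖w‖ := Real.log_pos hw1
  have h6 := Complex.abs_re_le_norm (Complex.log (ψ w / w))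
  rw [h3, h4] at h6
  have h7 := neg_abs_le (-(Real.log n / ((n:ℝ) - 1)) - Real.log ‖w‖)
  linarith

theorem exp_sub_le {n : ℕ} (hn : 2 ≤ n) {z z' : ℂ} (h1 : -((Real.log n + 1) / ((n:ℝ) - 1)) ≤ z.re)
    (h2 : z.re ≤ 1 / ((n:ℝ) - 1)) (h3 : |z.im| < Real.pi / ((n:ℝ) - 1))
    (h1' : -((Real.log n + 1) / ((n:ℝ) - 1)) ≤ z'.re)
    (h2' : z'.re ≤ 1 / ((n:ℝ) - 1)) (h3' : |z'.im| < Real.pi / ((n:ℝ) - 1)) :
    ‖Complex.exp z - Complex.exp z'‖ ≤ (Real.log n + 12) / ((n:ℝ) - 1) := by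
  have hnr : (2:ℝ) ≤ n := by exact_mod_cast hn
  have hn1 : (0:ℝ) < n - 1 := by linarith
  have hlog : 0 ≤ Real.log n := Real.log_nonneg (by linarith)
  have hpi := Real.pi_lt_d2
  by_cases hn5 : 5 ≤ n
  · have hn5r : (5:ℝ) ≤ n := by exact_mod_cast hn5
    set y : ℝ := 1 / ((n:ℝ) - 1) with hy
    have hy0 : 0 < y := by positivity
    have hy4 : y ≤ 1 / 4 := by
      rw [hy]; exact one_div_le_one_div_of_le (by norm_num) (by linarith)
    have hmvt : ‖Complex.exp z - Complex.exp z'‖ ≤ Real.exp y * ‖z - z'‖ := by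
      apply Convex.norm_image_sub_le_of_norm_deriv_le (s := {u : ℂ | u.re ≤ y}) (f := Complex.exp)
      · intro u _
        exact Complex.differentiableAt_exp
      · intro u hu
        rw [Complex.deriv_exp, Complex.norm_exp]
        exact Real.exp_le_exp.mpr hu
      · exact convex_halfSpace_re_le y
      · exact h2'
      · exact h2
    have hd : ‖z - z'‖ ≤ (Real.log n + 8.3) * y := by
      have h4 := Complex.norm_le_abs_re_add_abs_im (z - z')
      rw [Complex.sub_re, Complex.sub_im] at h4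
      have h5 : |z.re - z'.re| ≤ (Real.log n + 2) * y := by
        have e : (Real.log n + 1) / ((n:ℝ) - 1) = (Real.log n + 1) * y := by rw [hy]; ring
        rw [e] at h1 h1'
        rw [abs_le]
        constructor <;> nlinarith
      have h6 : |z.im - z'.im| ≤ 6.3 * y := by
        have e : Real.pi / ((n:ℝ) - 1) = Real.pi * y := by rw [hy]; ring
        rw [e] at h3 h3'
        have h7 := abs_sub z.im z'.im
        nlinarith
      linarith
    have hexp : Real.exp y ≤ 1 + y + y ^ 2 := by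
      have h8 := Real.abs_exp_sub_one_sub_id_le (x := y) (by rw [abs_of_pos hy0]; linarith)
      have h9 := (abs_le.mp h8).2
      linarith
    have hlg : Real.log n ≤ n / 3 + 0.11 := by
      have h10 : Real.log ((n:ℝ) / 3) ≤ n / 3 - 1 := Real.log_le_sub_one_of_pos (by positivity)
      rw [Real.log_div (by positivity) (by norm_num)] at h10
      have h11 : Real.log 3 ≤ 1.11 := by
        rw [Real.log_le_iff_le_exp (by norm_num)]
        have h12 := Real.add_one_le_exp (0.11)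
        have h13 := Real.exp_one_gt_d9
        have h14 : Real.exp 1.11 = Real.exp 1 * Real.exp 0.11 := by rw [← Real.exp_add]; norm_num
        rw [h14]
        nlinarith
      linarith
    have hny : (n:ℝ) * y = 1 + y := by
      rw [hy]; field_simp; ring
    have hlgy : Real.log n * y ≤ (1 + y) / 3 + 0.11 * y := by
      have := mul_le_mul_of_nonneg_right hlg hy0.le
      nlinarith
    have hD0 : 0 ≤ (Real.log n + 8.3) * y := by positivity
    calc ‖Complex.exp z - Complex.exp z'‖ ≤ Real.exp y * ‖z - z'‖ := hmvt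
      _ ≤ (1 + y + y ^ 2) * ((Real.log n + 8.3) * y) :=
        mul_le_mul hexp hd (norm_nonneg _) (by positivity)
      _ ≤ (Real.log n + 12) * y := by
        have h15 : (1 + y) * ((Real.log n + 8.3) * y) ≤ 3.7 := by
          have h16 : (Real.log n + 8.3) * y ≤ 2.55 := by nlinarith
          nlinarith
        have h17 : (y + y ^ 2) * ((Real.log n + 8.3) * y) ≤ 3.7 * y := by
          have : (y + y ^ 2) * ((Real.log n + 8.3) * y) = y * ((1 + y) * ((Real.log n + 8.3) * y)) := by ring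
          rw [this]
          nlinarith
        nlinarith
      _ = _ := by rw [hy]; ring
  · have hz : ‖Complex.exp z‖ ≤ Real.exp (1 / ((n:ℝ) - 1)) := by
      rw [Complex.norm_exp]; exact Real.exp_le_exp.mpr h2
    have hz' : ‖Complex.exp z'‖ ≤ Real.exp (1 / ((n:ℝ) - 1)) := by
      rw [Complex.norm_exp]; exact Real.exp_le_exp.mpr h2'
    have h4 := norm_sub_le (Complex.exp z) (Complex.exp z')
    have h5 : 2 * Real.exp (1 / ((n:ℝ) - 1)) ≤ 12 / ((n:ℝ) - 1) := by
      have he := Real.exp_one_lt_d9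
      have hn4 : n = 2 ∨ n = 3 ∨ n = 4 := by omega
      rcases hn4 with rfl | rfl | rfl
      · norm_num
        linarith
      · norm_num
        have h6 : Real.exp (1 / 2 : ℝ) ≤ 2.7182818286 :=
          (Real.exp_le_exp.mpr (by norm_num : (1 / 2 : ℝ) ≤ 1)).trans he.le
        linarith
      · norm_num
        have h6 : Real.exp (1 / 3) ^ 3 = Real.exp 1 := by rw [← Real.exp_nat_mul]; norm_num
        have h7 := Real.exp_pos (1 / 3 : ℝ)
        have h8 : Real.exp (1 / 3) ≤ 2 := by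
          by_contra hcon
          push Not at hcon
          have h9 : (2:ℝ) ^ 3 < Real.exp (1 / 3) ^ 3 := pow_lt_pow_left₀ hcon (by norm_num) (by norm_num)
          rw [h6] at h9
          linarith
        linarith
    calc ‖Complex.exp z - Complex.exp z'‖ ≤ 12 / ((n:ℝ) - 1) := by linarith
      _ ≤ _ := by
        gcongr
        linarith

theorem impression {n : ℕ} (hn : 2 ≤ n) {ψ : ℂ → ℂ} (hψ : IsExteriorMap (multibrotSet n) ψ) {ζ : ℂ}
    (hζ : ‖ζ‖ = 1) {c c' : ℂ} (hc : MapClusterPt c (𝓝[{w | 1 < ‖w‖}] ζ) ψ)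
    (hc' : MapClusterPt c' (𝓝[{w | 1 < ‖w‖}] ζ) ψ) :
    ‖c - c'‖ ≤ (Real.log n + 12) / ((n:ℝ) - 1) := by
  have hnr : (2:ℝ) ≤ n := by exact_mod_cast hn
  have hn1 : (0:ℝ) < n - 1 := by linarith
  have hlog : 0 ≤ Real.log n := Real.log_nonneg (by linarith)
  set D := (Real.log n + 12) / ((n:ℝ) - 1) with hD
  have hD0 : 0 ≤ D := by positivity
  set E := Real.exp (1 / ((n:ℝ) - 1)) with hE
  have hE0 : 0 < E := Real.exp_pos _
  apply le_of_forall_pos_le_add
  intro η hη
  set K := 2 + D + 2 * E with hK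
  have hK0 : 0 < K := by positivity
  set ε := η / K with hε
  have hε0 : 0 < ε := by positivity
  have hev : ∀ᶠ w in 𝓝[{w : ℂ | 1 < ‖w‖}] ζ, 1 < ‖w‖ ∧ ‖w - ζ‖ < ε := by
    apply Filter.Eventually.and
    · exact eventually_mem_nhdsWithin
    · apply mem_nhdsWithin_of_mem_nhds
      filter_upwards [ball_mem_nhds ζ hε0] with w hw
      rwa [← dist_eq_norm]
  have hfr : ∀ b : ℂ, MapClusterPt b (𝓝[{w : ℂ | 1 < ‖w‖}] ζ) ψ → ∃ w : ℂ, 1 < ‖w‖ ∧ ‖w - ζ‖ < ε ∧
      ‖ψ w - b‖ < ε := by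
    intro b hb
    have h1 := hb.frequently (p := fun y => ‖y - b‖ < ε) (by
      filter_upwards [ball_mem_nhds b hε0] with y hy
      rwa [← dist_eq_norm])
    obtain ⟨w, hw1, hw2⟩ := (h1.and_eventually hev).exists
    exact ⟨w, hw2.1, hw2.2, hw1⟩
  obtain ⟨w, hw1, hw2, hw3⟩ := hfr c hc
  obtain ⟨w', hw1', hw2', hw3'⟩ := hfr c' hc'
  obtain ⟨z, hz, -, hz1, hz2, hz3⟩ := psi_log hn hψ hw1
  obtain ⟨z', hz', -, hz1', hz2', hz3'⟩ := psi_log hn hψ hw1'
  have h1 := exp_sub_le hn hz1 hz2 hz3 hz1' hz2' hz3'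
  have h2 : ‖Complex.exp z'‖ ≤ E := by
    rw [Complex.norm_exp]; exact Real.exp_le_exp.mpr hz2'
  have h3 : ‖w‖ ≤ 1 + ε := by
    have := norm_add_le (w - ζ) ζ
    rw [sub_add_cancel, hζ] at this
    linarith
  have h4 : ‖w - w'‖ ≤ 2 * ε := by
    have := norm_sub_le (w - ζ) (w' - ζ)
    rw [sub_sub_sub_cancel_right] at this
    linarith
  have h5 : ‖ψ w - ψ w'‖ ≤ (1 + ε) * D + 2 * ε * E := by
    have e : ψ w - ψ w' = w * (Complex.exp z - Complex.exp z') + (w - w') * Complex.exp z' := by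
      rw [hz, hz']; ring
    rw [e]
    refine (norm_add_le _ _).trans ?_
    rw [norm_mul, norm_mul]
    apply add_le_add
    · exact mul_le_mul h3 h1 (norm_nonneg _) (by linarith)
    · exact mul_le_mul h4 h2 (norm_nonneg _) (by linarith)
  have h6 : ‖c - c'‖ ≤ ‖ψ w - c‖ + ‖ψ w' - c'‖ + ‖ψ w - ψ w'‖ := by
    have e : c - c' = (ψ w - ψ w') - (ψ w - c) + (ψ w' - c') := by ring
    rw [e]
    have h7 := norm_add_le ((ψ w - ψ w') - (ψ w - c)) (ψ w' - c')
    have h8 := norm_sub_le (ψ w - ψ w') (ψ w - c)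
    linarith
  have h9 : ε * K = η := by rw [hε]; field_simp
  have h10 : ε * K = 2 * ε + ε * D + 2 * ε * E := by rw [hK]; ring
  nlinarith

end Pool.Agent.X201.MB
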